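import Pool.Agent.Y848.RC.Main

/-!
Geometric progressions in dense sets of reduced classes, and the hereditary forms.
-/

set_option autoImplicit false

namespace Pool.Agent.Y848.RC

open Finset Filter
open Pool.Agent.Y855 (MajG rsa)

open Classical in
/-- dense sets of reduced classes contain geometric progressions with ratio `g ^ r`, `r ≤ R` -/
theorem gp_main (k : ℕ) (hk : 2 ≤ k) (ε : ℝ) (hε : 0 < ε) : ∃ R : ℕ, ∀ m : ℕ, 1 ≤ m → ∀ g : ℕ, g.Coprime m →
    ∀ S : Finset ℕ, (∀ n ∈ S, n < m ∧ n.Coprime m) → ε * (m.totient : ℝ) ≤ S.card →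
    ∃ a r : ℕ, 1 ≤ r ∧ r ≤ R ∧ ∀ j < k, a * g ^ (r * j) % m ∈ S := by
  obtain ⟨η, c, hη, hc, Hrs⟩ := rsa k hk (ε / 3) (by positivity)
  obtain ⟨T, hT⟩ : ∃ T : ℕ, 1 / c ≤ T := exists_nat_ge _
  obtain ⟨N, hNle, hNp⟩ := Nat.exists_infinite_primes (T + k + 6)
  refine ⟨N, ?_⟩
  intro m hm g hg S hS hcard
  obtain ⟨A, hA⟩ : ∃ A : Finset ℕ, A = (range m).filter (fun c => m.Coprime c) := ⟨_, rfl⟩
  have hAc : A.card = m.totient := by rw [hA, Nat.totient]
  have hA0 : 0 < A.card := by rw [hAc]; exact Nat.totient_pos.2 (by omega)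
  have hA0' : (0 : ℝ) < A.card := by exact_mod_cast hA0
  obtain ⟨h, hh⟩ : ∃ h : ℕ, h = (N - 1) / 2 := ⟨_, rfl⟩
  have h3h : (N : ℝ) ≤ 3 * h := by
    have : N ≤ 3 * h := by omega
    exact_mod_cast this
  have hbij : ∀ u : ℕ, (A.filter (fun a => a * g ^ u % m ∈ S)).card = S.card := by
    intro u
    have hgu : (g ^ u).Coprime m := Nat.Coprime.pow_left u hg
    apply card_bij (fun a _ => a * g ^ u % m)
    · intro a ha
      rw [mem_filter] at ha
      exact ha.2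
    · intro a ha a' ha' h1
      rw [mem_filter, hA, mem_filter, mem_range] at ha ha'
      have h2 : a * g ^ u ≡ a' * g ^ u [MOD m] := h1
      have h3 : a ≡ a' [MOD m] := Nat.ModEq.cancel_right_of_coprime (by rw [Nat.gcd_comm]; exact hgu) h2
      have h4 : a % m = a' % m := h3
      rwa [Nat.mod_eq_of_lt ha.1.1, Nat.mod_eq_of_lt ha'.1.1] at h4
    · intro n hn
      obtain ⟨hn1, hn2⟩ := hS n hn
      obtain ⟨v, hv⟩ : ∃ v : ℕ, g ^ u * v ≡ 1 [MOD m] := by
        refine ⟨(g ^ u) ^ (m.totient - 1), ?_⟩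
        rw [← pow_succ', Nat.sub_add_cancel (Nat.totient_pos.2 (by omega))]
        exact Nat.ModEq.pow_totient hgu
      refine ⟨n * v % m, ?_, ?_⟩
      · have h1 : (n * v % m) * g ^ u % m = n := by
          have h2 : (n * v % m) * g ^ u ≡ n [MOD m] := by
            calc (n * v % m) * g ^ u ≡ (n * v) * g ^ u [MOD m] := Nat.ModEq.mul_right _ (Nat.mod_modEq _ _)
              _ = n * (g ^ u * v) := by ring
              _ ≡ n * 1 [MOD m] := Nat.ModEq.mul_left n hv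
              _ = n := mul_one n
          have h3 : (n * v % m) * g ^ u % m = n % m := h2
          rwa [Nat.mod_eq_of_lt hn1] at h3
        rw [mem_filter, hA, mem_filter, mem_range]
        refine ⟨⟨Nat.mod_lt _ (by omega), ?_⟩, by rw [h1]; exact hn⟩
        have h4 : (n * v % m * g ^ u % m).Coprime m := by rw [h1]; exact hn2
        have h5 : (n * v % m * g ^ u).Coprime m := by
          rwa [Nat.Coprime, (Nat.mod_modEq _ _).gcd_eq] at h4
        exact (Nat.Coprime.coprime_mul_right h5).symm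
      · have h2 : (n * v % m) * g ^ u ≡ n [MOD m] := by
          calc (n * v % m) * g ^ u ≡ (n * v) * g ^ u [MOD m] := Nat.ModEq.mul_right _ (Nat.mod_modEq _ _)
            _ = n * (g ^ u * v) := by ring
            _ ≡ n * 1 [MOD m] := Nat.ModEq.mul_left n hv
            _ = n := mul_one n
        have h3 : (n * v % m) * g ^ u % m = n % m := h2
        rwa [Nat.mod_eq_of_lt hn1] at h3
  have hfin := Hrs N hNp (by omega) (by omega) A (fun _ _ => 1) 1 (card_pos.1 hA0) le_rfl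
    ⟨fun _ _ => zero_le_one, by
      intro j _ u _ _
      simp only [prod_const_one, sum_const, nsmul_eq_mul, mul_one]
      rw [div_self hA0'.ne', sub_self, abs_zero]
      exact hη.le, fun _ _ _ _ _ => le_rfl⟩
    (by
      rw [one_pow]
      rw [div_le_iff₀ hc] at hT
      have h1 : (T : ℝ) ≤ N := by exact_mod_cast (show T ≤ N by omega)
      calc (1 : ℝ) ≤ T * c := hT
        _ ≤ N * c := by gcongr
        _ = c * N := mul_comm _ _)
    (fun a u => if a * g ^ u % m ∈ S then 1 else 0)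
    (by
      intro a _ u
      split_ifs
      · exact ⟨zero_le_one, le_rfl⟩
      · exact ⟨le_rfl, zero_le_one⟩)
    (by
      rw [← hh, sum_comm]
      have h1 : ∀ u ∈ Icc 1 h, ∑ a ∈ A, (if a * g ^ u % m ∈ S then (1 : ℝ) else 0) = S.card := by
        intro u _
        rw [← sum_filter, sum_const, nsmul_eq_mul, mul_one, hbij u]
      rw [sum_congr rfl h1, sum_const, nsmul_eq_mul, Nat.card_Icc, Nat.add_sub_cancel]
      calc ε / 3 * (A.card : ℝ) * N ≤ ε / 3 * (A.card : ℝ) * (3 * h) := by gcongr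
        _ = h * (ε * (m.totient : ℝ)) := by rw [hAc]; ring
        _ ≤ h * S.card := by gcongr)
  obtain ⟨a, _, u, r, hu, hr, hap⟩ := hfin
  have hr1 : r ≤ N := by
    have h1 := (hap 1 (by omega)).1
    omega
  refine ⟨a * g ^ u, r, hr, hr1, ?_⟩
  intro j hj
  have h4 := (hap j hj).2
  by_contra hcon
  apply h4
  rw [if_neg]
  intro h5
  apply hcon
  have e : a * g ^ u * g ^ (r * j) = a * g ^ (u + j * r) := by
    rw [mul_assoc, ← pow_add, mul_comm r j]
  rw [e]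
  exact h5

/-- `c` belongs to a `k`-term progression inside `S` with common difference at most `D` -/
def InAP (k : ℕ) (D : ℝ) (S : Set ℕ) (c : ℕ) : Prop :=
  ∃ a d i : ℕ, 1 ≤ d ∧ (d : ℝ) ≤ D ∧ i < k ∧ c = a + i * d ∧ ∀ j < k, a + j * d ∈ S

/-- `c` belongs to a `k`-term geometric progression modulo `m` inside `S` with ratio `g ^ r`, `r ≤ R` -/
def InGP (k R m g : ℕ) (S : Set ℕ) (c : ℕ) : Prop :=
  ∃ a r i : ℕ, 1 ≤ r ∧ r ≤ R ∧ i < k ∧ c = a * g ^ (r * i) % m ∧ ∀ j < k, a * g ^ (r * j) % m ∈ S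

open Classical in
theorem her_ap (k : ℕ) (hk : 2 ≤ k) (ε θ : ℝ) (hε : 0 < ε) (hθ : 0 < θ) : ∃ B m₀ : ℕ, ∀ m : ℕ, m₀ ≤ m →
    ∀ x H : ℕ, (m : ℝ) ^ θ ≤ H → ∀ S : Finset ℕ, (∀ n ∈ S, x < n ∧ n ≤ x + H ∧ n.Coprime m) →
    ((S.filter (fun c => ¬ InAP k (Real.log (Real.log m) ^ B) S c)).card : ℝ) ≤
      ε * ((m.totient : ℝ) / m * H) := by
  obtain ⟨B, m₀, h⟩ := ap_main k hk ε θ hε hθ
  refine ⟨B, m₀, ?_⟩
  intro m hm x H hH S hS
  by_contra hcon
  push Not at hcon
  obtain ⟨a, d, hd, hdB, hap⟩ := h m hm x H hH (S.filter (fun c => ¬ InAP k (Real.log (Real.log m) ^ B) S c))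
    (fun n hn => hS n (mem_filter.1 hn).1) hcon.le
  have h0 := hap 0 (by omega)
  rw [mem_filter] at h0
  apply h0.2
  exact ⟨a, d, 0, hd, hdB, by omega, rfl, fun j hj => (mem_filter.1 (hap j hj)).1⟩

open Classical in
theorem her_gp (k : ℕ) (hk : 2 ≤ k) (ε : ℝ) (hε : 0 < ε) : ∃ R : ℕ, ∀ m : ℕ, 1 ≤ m → ∀ g : ℕ, g.Coprime m →
    ∀ S : Finset ℕ, (∀ n ∈ S, n < m ∧ n.Coprime m) →
    ((S.filter (fun c => ¬ InGP k R m g S c)).card : ℝ) ≤ ε * (m.totient : ℝ) := by
  obtain ⟨R, h⟩ := gp_main k hk ε hε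
  refine ⟨R, ?_⟩
  intro m hm g hg S hS
  by_contra hcon
  push Not at hcon
  obtain ⟨a, r, hr, hrR, hap⟩ := h m hm g hg (S.filter (fun c => ¬ InGP k R m g S c))
    (fun n hn => hS n (mem_filter.1 hn).1) hcon.le
  have h0 := hap 0 (by omega)
  rw [mem_filter] at h0
  apply h0.2
  exact ⟨a, r, 0, hr, hrR, by omega, rfl, fun j hj => (mem_filter.1 (hap j hj)).1⟩

end Pool.Agent.Y848.RC
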