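import Mathlib

/-!
Sieving an interval by arbitrary residue classes modulo the primes of a finite set (Legendre), and the
comparison of the products of local densities.
-/

set_option autoImplicit false

namespace Pool.Agent.Y848.RC

open Finset

/-- numbers of a residue class in an interval -/
theorem cnt_base (q r x H : ℕ) (hq : 1 ≤ q) :
    |(((Ioc x (x + H)).filter (fun a => a % q = r % q)).card : ℝ) - (H : ℝ) / q| ≤ 1 := by
  have h1 := Nat.Ioc_filter_modEq_card x (x + H) (show 0 < q by omega) r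
  have h2 : (Ioc x (x + H)).filter (fun a => a % q = r % q) =
      (Ioc x (x + H)).filter (fun a => a ≡ r [MOD q]) := rfl
  rw [h2]
  obtain ⟨n, hn⟩ : ∃ n : ℕ, n = ((Ioc x (x + H)).filter (fun a => a ≡ r [MOD q])).card := ⟨_, rfl⟩
  rw [← hn] at h1 ⊢
  have hq0 : (0 : ℚ) < q := by exact_mod_cast hq
  have e : (((x + H : ℕ) : ℚ) - r) / q = ((x : ℚ) - r) / q + (H : ℚ) / q := by
    push_cast; ring
  have h3 := Int.floor_le ((((x + H : ℕ) : ℚ) - r) / q)
  have h4 := Int.lt_floor_add_one ((((x + H : ℕ) : ℚ) - r) / q)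
  have h5 := Int.floor_le (((x : ℚ) - r) / q)
  have h6 := Int.lt_floor_add_one (((x : ℚ) - r) / q)
  have h7 : (0 : ℚ) ≤ (H : ℚ) / q := by positivity
  have h8 : ⌊((x : ℚ) - r) / q⌋ ≤ ⌊(((x + H : ℕ) : ℚ) - r) / q⌋ := by
    apply Int.floor_le_floor
    rw [e]; linarith
  rw [max_eq_left (by linarith)] at h1
  have h9 : (n : ℚ) = (⌊(((x + H : ℕ) : ℚ) - r) / q⌋ : ℚ) - (⌊((x : ℚ) - r) / q⌋ : ℚ) := by
    exact_mod_cast h1
  have h10 : |(n : ℚ) - (H : ℚ) / q| ≤ 1 := by
    rw [h9, abs_le]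
    constructor <;> linarith
  have h11 : (((|(n : ℚ) - (H : ℚ) / q| : ℚ)) : ℝ) ≤ ((1 : ℚ) : ℝ) := by exact_mod_cast h10
  push_cast at h11
  exact h11

open Classical in
/-- Legendre's sieve with arbitrary classes. -/
theorem cnt (P : Finset ℕ) (Om : ℕ → Finset ℕ) : (∀ p ∈ P, p.Prime) → (∀ p ∈ P, ∀ c ∈ Om p, c < p) →
    ∀ q r : ℕ, 1 ≤ q → (∀ p ∈ P, ¬ p ∣ q) → ∀ x H : ℕ,
    |(((Ioc x (x + H)).filter (fun a => a % q = r % q ∧ ∀ p ∈ P, a % p ∉ Om p)).card : ℝ) -
      (H : ℝ) / q * ∏ p ∈ P, (1 - ((Om p).card : ℝ) / p)| ≤ ∏ p ∈ P, (1 + ((Om p).card : ℝ)) := by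
  induction P using Finset.induction_on with
  | empty =>
    intro _ _ q r hq _ x H
    simpa using cnt_base q r x H hq
  | insert p P hp ih =>
    intro hpr hOm q r hq hcop x H
    have ih' := ih (fun p' hp' => hpr p' (mem_insert_of_mem hp'))
      (fun p' hp' => hOm p' (mem_insert_of_mem hp'))
    have hpp : p.Prime := hpr p (mem_insert_self _ _)
    have hpq : ¬ p ∣ q := hcop p (mem_insert_self _ _)
    have hcopP : ∀ p' ∈ P, ¬ p' ∣ q := fun p' hp' => hcop p' (mem_insert_of_mem hp')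
    have hqp : Nat.Coprime q p := ((Nat.Prime.coprime_iff_not_dvd hpp).2 hpq).symm
    have h0 := ih' q r hq hcopP x H
    have hc : ∀ c ∈ Om p, |(((Ioc x (x + H)).filter (fun a => (a % q = r % q ∧ ∀ p' ∈ P, a % p' ∉ Om p') ∧
        a % p = c)).card : ℝ) - (H : ℝ) / (q * p : ℕ) * ∏ p' ∈ P, (1 - ((Om p').card : ℝ) / p')| ≤
        ∏ p' ∈ P, (1 + ((Om p').card : ℝ)) := by
      intro c hc
      obtain ⟨r', hr'q, hr'p⟩ := Nat.chineseRemainder hqp r c
      have h1 := ih' (q * p) r' (Nat.mul_pos hq hpp.pos) (by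
        intro p' hp' hd
        rcases (Nat.Prime.dvd_mul (hpr p' (mem_insert_of_mem hp'))).1 hd with h | h
        · exact hcopP p' hp' h
        · have := (Nat.prime_dvd_prime_iff_eq (hpr p' (mem_insert_of_mem hp')) hpp).1 h
          rw [this] at hp'
          exact hp hp') x H
      have e : (Ioc x (x + H)).filter (fun a => (a % q = r % q ∧ ∀ p' ∈ P, a % p' ∉ Om p') ∧ a % p = c) =
          (Ioc x (x + H)).filter (fun a => a % (q * p) = r' % (q * p) ∧ ∀ p' ∈ P, a % p' ∉ Om p') := by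
        apply filter_congr
        intro a _
        have hcp : c < p := hOm p (mem_insert_self _ _) c hc
        have h2 : a % (q * p) = r' % (q * p) ↔ a % q = r % q ∧ a % p = c := by
          constructor
          · intro h
            have h3 : a ≡ r' [MOD q * p] := h
            have h4 : a ≡ r' [MOD q] := h3.of_mul_right p
            have h5 : a ≡ r' [MOD p] := h3.of_mul_left q
            refine ⟨h4.trans hr'q, ?_⟩
            have h6 : a % p = c % p := h5.trans hr'p
            rwa [Nat.mod_eq_of_lt hcp] at h6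
          · rintro ⟨h3, h4⟩
            have h5 : a ≡ r' [MOD q] := Nat.ModEq.trans h3 (Nat.ModEq.symm hr'q)
            have h6 : a ≡ c [MOD p] := by
              show a % p = c % p
              rw [h4, Nat.mod_eq_of_lt hcp]
            have h7 : a ≡ r' [MOD p] := h6.trans (Nat.ModEq.symm hr'p)
            exact (Nat.modEq_and_modEq_iff_modEq_mul hqp).1 ⟨h5, h7⟩
        rw [h2]
        tauto
      rw [e]
      exact h1
    have hsplit : (((Ioc x (x + H)).filter (fun a => a % q = r % q ∧ ∀ p' ∈ P, a % p' ∉ Om p')).card : ℝ) =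
        ((Ioc x (x + H)).filter (fun a => a % q = r % q ∧ ∀ p' ∈ insert p P, a % p' ∉ Om p')).card +
        ∑ c ∈ Om p, (((Ioc x (x + H)).filter (fun a => (a % q = r % q ∧ ∀ p' ∈ P, a % p' ∉ Om p') ∧
        a % p = c)).card : ℝ) := by
      have h1 := card_filter_add_card_filter_not (s := (Ioc x (x + H)).filter
        (fun a => a % q = r % q ∧ ∀ p' ∈ P, a % p' ∉ Om p')) (fun a => a % p ∉ Om p)
      have h2 : ((Ioc x (x + H)).filter (fun a => a % q = r % q ∧ ∀ p' ∈ P, a % p' ∉ Om p')).filter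
          (fun a => a % p ∉ Om p) = (Ioc x (x + H)).filter
            (fun a => a % q = r % q ∧ ∀ p' ∈ insert p P, a % p' ∉ Om p') := by
        rw [filter_filter]
        apply filter_congr
        intro a _
        rw [forall_mem_insert]
        tauto
      have h3 : (((Ioc x (x + H)).filter (fun a => a % q = r % q ∧ ∀ p' ∈ P, a % p' ∉ Om p')).filter
          (fun a => ¬ a % p ∉ Om p)).card = ∑ c ∈ Om p, ((Ioc x (x + H)).filter
            (fun a => (a % q = r % q ∧ ∀ p' ∈ P, a % p' ∉ Om p') ∧ a % p = c)).card := by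
        rw [card_eq_sum_card_fiberwise (f := fun a => a % p) (t := Om p)]
        · apply sum_congr rfl
          intro c hc
          rw [filter_filter, filter_filter]
          congr 1
          apply filter_congr
          intro a _
          constructor
          · rintro ⟨h4, -, h5⟩
            exact ⟨h4, h5⟩
          · rintro ⟨h4, h5⟩
            refine ⟨h4, ?_, h5⟩
            rw [h5]
            exact not_not.2 hc
        · intro a ha
          rw [mem_coe, mem_filter] at ha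
          exact not_not.1 ha.2
      rw [h2, h3] at h1
      rw [← h1]
      push_cast
      ring
    rw [prod_insert hp, prod_insert hp]
    obtain ⟨Pr, hPr⟩ : ∃ Pr : ℝ, Pr = ∏ p' ∈ P, (1 - ((Om p').card : ℝ) / p') := ⟨_, rfl⟩
    obtain ⟨E, hE⟩ : ∃ E : ℝ, E = ∏ p' ∈ P, (1 + ((Om p').card : ℝ)) := ⟨_, rfl⟩
    rw [← hPr, ← hE] at h0 ⊢
    simp_rw [← hPr, ← hE] at hc
    obtain ⟨Sg, hSg⟩ : ∃ t : ℝ, t = ∑ c ∈ Om p, (((Ioc x (x + H)).filter (fun a => (a % q = r % q ∧
        ∀ p' ∈ P, a % p' ∉ Om p') ∧ a % p = c)).card : ℝ) := ⟨_, rfl⟩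
    have hsum : |Sg - ((Om p).card : ℝ) * ((H : ℝ) / (q * p : ℕ) * Pr)| ≤ (Om p).card * E := by
      rw [hSg, ← nsmul_eq_mul, ← sum_const, ← sum_sub_distrib]
      refine (abs_sum_le_sum_abs _ _).trans ?_
      rw [← nsmul_eq_mul, ← sum_const]
      exact sum_le_sum hc
    rw [← hSg] at hsplit
    have hp0 : (p : ℝ) ≠ 0 := by exact_mod_cast hpp.ne_zero
    have hq0 : (q : ℝ) ≠ 0 := by exact_mod_cast (show q ≠ 0 by omega)
    have e1 : ((Om p).card : ℝ) * ((H : ℝ) / (q * p : ℕ) * Pr) = (H : ℝ) / q * (((Om p).card : ℝ) / p * Pr) := by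
      push_cast
      field_simp
    rw [e1] at hsum
    have h0' := abs_le.1 h0
    have hs' := abs_le.1 hsum
    have e2 : (H : ℝ) / q * ((1 - ((Om p).card : ℝ) / p) * Pr) = (H : ℝ) / q * Pr -
        (H : ℝ) / q * (((Om p).card : ℝ) / p * Pr) := by ring
    rw [e2, abs_le]
    constructor <;> linarith [h0'.1, h0'.2, hs'.1, hs'.2]

/-- a lower bound for a product -/
theorem one_sub_sum_le (P : Finset ℕ) (f : ℕ → ℝ) (h0 : ∀ p ∈ P, 0 ≤ f p ∧ f p ≤ 1) :
    1 - ∑ p ∈ P, f p ≤ ∏ p ∈ P, (1 - f p) := by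
  classical
  induction P using Finset.induction_on with
  | empty => simp
  | insert p P hp ih =>
    have ih' := ih (fun p' hp' => h0 p' (mem_insert_of_mem hp'))
    obtain ⟨h1, h2⟩ := h0 p (mem_insert_self _ _)
    rw [sum_insert hp, prod_insert hp]
    have h3 : 0 ≤ ∑ p ∈ P, f p := sum_nonneg fun p' hp' => (h0 p' (mem_insert_of_mem hp')).1
    nlinarith [mul_le_mul_of_nonneg_left ih' (show 0 ≤ 1 - f p by linarith)]

/-- the local factors -/
theorem factor (M ρ p : ℕ) (hp : 2 * M ≤ p) (hp0 : 2 ≤ p) (hρ : ρ ≤ M) :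
    (1 - (M : ℝ) ^ 2 / p ^ 2) ≤ (1 - (ρ : ℝ) / p) / (1 - 1 / (p : ℝ)) ^ M ∧
    (1 - (ρ : ℝ) / p) / (1 - 1 / (p : ℝ)) ^ M ≤ Real.exp (if ρ = M then 0 else 2 * M / p) := by
  have hp' : (2 : ℝ) ≤ p := by exact_mod_cast hp0
  have hp1 : (0 : ℝ) < p := by linarith
  have hM : (M : ℝ) / p ≤ 1 / 2 := by
    rw [div_le_iff₀ hp1]
    have : (2 * M : ℝ) ≤ p := by exact_mod_cast hp
    linarith
  have hM0 : (0 : ℝ) ≤ (M : ℝ) / p := by positivity
  have hρM : (ρ : ℝ) / p ≤ (M : ℝ) / p := by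
    apply div_le_div_of_nonneg_right _ hp1.le
    exact_mod_cast hρ
  have hρ0 : (0 : ℝ) ≤ (ρ : ℝ) / p := by positivity
  obtain ⟨t, ht⟩ : ∃ t : ℝ, t = 1 / (p : ℝ) := ⟨_, rfl⟩
  have ht0 : 0 ≤ t := by rw [ht]; positivity
  have ht1 : t ≤ 1 / 2 := by
    rw [ht]
    exact one_div_le_one_div_of_le two_pos hp'
  have hMt : (M : ℝ) / p = M * t := by rw [ht]; ring
  have hM2 : (M : ℝ) ^ 2 / p ^ 2 = (M * t) ^ 2 := by rw [ht]; ring
  have hB : 1 - M * t ≤ (1 - t) ^ M := by
    have h1 := one_add_mul_le_pow (show (-2 : ℝ) ≤ -t by linarith) M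
    have e : 1 + (M : ℝ) * -t = 1 - M * t := by ring
    rw [e] at h1
    calc 1 - M * t ≤ (1 + -t) ^ M := h1
      _ = (1 - t) ^ M := by rw [sub_eq_add_neg]
  have hpos : 0 < (1 - t) ^ M := pow_pos (by linarith) M
  have hU : (1 - t) ^ M * (1 + M * t) ≤ 1 := by
    have h1 := one_add_mul_le_pow (show (-2 : ℝ) ≤ t by linarith) M
    calc (1 - t) ^ M * (1 + M * t) ≤ (1 - t) ^ M * (1 + t) ^ M := by
          apply mul_le_mul_of_nonneg_left h1 hpos.le
      _ = (1 - t ^ 2) ^ M := by rw [← mul_pow]; congr 1; ring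
      _ ≤ 1 := pow_le_one₀ (by nlinarith) (by nlinarith)
  rw [← ht, hM2]
  rw [hMt] at hM hM0 hρM
  constructor
  · rw [le_div_iff₀ hpos]
    have h1 : 1 - (M * t) ^ 2 = (1 - M * t) * (1 + M * t) := by ring
    rw [h1]
    have h2 : (1 - M * t) * ((1 - t) ^ M * (1 + M * t)) ≤ (1 - M * t) * 1 :=
      mul_le_mul_of_nonneg_left hU (by linarith)
    calc (1 - M * t) * (1 + M * t) * (1 - t) ^ M = (1 - M * t) * ((1 - t) ^ M * (1 + M * t)) := by ring
      _ ≤ 1 - M * t := by linarith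
      _ ≤ 1 - (ρ : ℝ) / p := by linarith
  · rw [div_le_iff₀ hpos]
    split_ifs with h
    · rw [Real.exp_zero, one_mul, h, hMt]
      exact hB
    · have h1 : 2 * (M : ℝ) / p = 2 * (M * t) := by rw [ht]; ring
      rw [h1]
      have h2 : 1 + 2 * (M * t) ≤ Real.exp (2 * (M * t)) := by
        have := Real.add_one_le_exp (2 * (M * t))
        linarith
      have h3 : 1 ≤ (1 + 2 * (M * t)) * (1 - M * t) := by nlinarith
      calc 1 - (ρ : ℝ) / p ≤ 1 := by linarith
        _ ≤ (1 + 2 * (M * t)) * (1 - M * t) := h3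
        _ ≤ Real.exp (2 * (M * t)) * (1 - t) ^ M := by
          apply mul_le_mul h2 hB (by linarith) (Real.exp_pos _).le

open Classical in
/-- the product of the local factors -/
theorem prodR (M w : ℕ) (hw : 2 * M ≤ w) (hw2 : 2 ≤ w) (P : Finset ℕ) (hP : ∀ p ∈ P, w < p) (ρ : ℕ → ℕ)
    (hρ : ∀ p ∈ P, ρ p ≤ M) :
    1 - 2 * (M : ℝ) ^ 2 / w ≤ ∏ p ∈ P, (1 - (ρ p : ℝ) / p) / (1 - 1 / (p : ℝ)) ^ M ∧
    ∏ p ∈ P, (1 - (ρ p : ℝ) / p) / (1 - 1 / (p : ℝ)) ^ M ≤
      Real.exp (2 * M * (P.filter (fun p => ρ p ≠ M)).card / w) := by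
  have hw0 : (0 : ℝ) < w := by exact_mod_cast (show 0 < w by omega)
  have hf : ∀ p ∈ P, _ := fun p hp => factor M (ρ p) p (by have := hP p hp; omega)
    (by have := hP p hp; omega) (hρ p hp)
  have hsm : ∀ p ∈ P, (0 : ℝ) ≤ (M : ℝ) ^ 2 / p ^ 2 ∧ (M : ℝ) ^ 2 / p ^ 2 ≤ 1 := by
    intro p hp
    refine ⟨by positivity, ?_⟩
    have h1 : w < p := hP p hp
    have h2 : (M : ℝ) ≤ p := by exact_mod_cast (show M ≤ p by omega)
    have h3 : (0 : ℝ) < (p : ℝ) ^ 2 := by
      have : (0 : ℝ) < p := by exact_mod_cast (show 0 < p by omega)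
      positivity
    rw [div_le_one h3]
    exact pow_le_pow_left₀ (Nat.cast_nonneg _) h2 2
  constructor
  · calc 1 - 2 * (M : ℝ) ^ 2 / w ≤ 1 - ∑ p ∈ P, (M : ℝ) ^ 2 / p ^ 2 := by
          apply sub_le_sub_left
          have h1 : P ⊆ Ioo w (P.sup id + 1) := by
            intro p hp
            rw [mem_Ioo]
            exact ⟨hP p hp, Nat.lt_succ_of_le (le_sup (f := id) hp)⟩
          calc ∑ p ∈ P, (M : ℝ) ^ 2 / p ^ 2 ≤ ∑ p ∈ Ioo w (P.sup id + 1), (M : ℝ) ^ 2 / p ^ 2 :=
                sum_le_sum_of_subset_of_nonneg h1 (fun p _ _ => by positivity)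
            _ = (M : ℝ) ^ 2 * ∑ p ∈ Ioo w (P.sup id + 1), ((p : ℝ) ^ 2)⁻¹ := by
                rw [mul_sum]
                apply sum_congr rfl
                intro p _
                rw [div_eq_mul_inv]
            _ ≤ (M : ℝ) ^ 2 * (2 / (w + 1)) := by
                apply mul_le_mul_of_nonneg_left (sum_Ioo_inv_sq_le w _) (by positivity)
            _ ≤ (M : ℝ) ^ 2 * (2 / w) := by
                apply mul_le_mul_of_nonneg_left _ (by positivity)
                exact div_le_div_of_nonneg_left (by norm_num) hw0 (by linarith)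
            _ = 2 * (M : ℝ) ^ 2 / w := by ring
      _ ≤ ∏ p ∈ P, (1 - (M : ℝ) ^ 2 / p ^ 2) := one_sub_sum_le P _ hsm
      _ ≤ _ := by
          apply prod_le_prod
          · intro p hp
            linarith [(hsm p hp).2]
          · intro p hp
            exact (hf p hp).1
  · calc ∏ p ∈ P, (1 - (ρ p : ℝ) / p) / (1 - 1 / (p : ℝ)) ^ M
        ≤ ∏ p ∈ P, Real.exp (if ρ p = M then 0 else 2 * M / p) := by
          apply prod_le_prod
          · intro p hp
            exact (by linarith [(hsm p hp).2] : (0 : ℝ) ≤ 1 - (M : ℝ) ^ 2 / p ^ 2).trans (hf p hp).1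
          · intro p hp
            exact (hf p hp).2
      _ ≤ ∏ p ∈ P, Real.exp (if ρ p ≠ M then 2 * M / w else 0) := by
          apply prod_le_prod
          · intro p _
            exact (Real.exp_pos _).le
          · intro p hp
            apply Real.exp_le_exp.2
            by_cases h : ρ p = M
            · simp [h]
            · rw [if_neg h, if_pos h]
              apply div_le_div_of_nonneg_left (by positivity) hw0
              exact_mod_cast (hP p hp).le
      _ = Real.exp (2 * M * (P.filter (fun p => ρ p ≠ M)).card / w) := by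
          rw [← Real.exp_sum, ← sum_filter, sum_const, nsmul_eq_mul]
          congr 1
          ring

end Pool.Agent.Y848.RC
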