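import Pool.Agent.Y848.RC.Maj

/-!
Arithmetic progressions with very small differences in relatively dense sets of integers prime to `m`.
-/

set_option autoImplicit false

namespace Pool.Agent.Y848.RC

open Finset Filter
open Pool.Agent.Y855 (MajG rsa)

theorem gf_le (m w : ℕ) : gf m w ≤ ∏ p ∈ m.primeFactors, (1 - 1 / (p : ℝ))⁻¹ := by
  unfold gf
  have h1 : ∏ p ∈ m.primeFactors.filter (fun p => p ≤ w), (1 : ℝ) ≤
      ∏ p ∈ m.primeFactors.filter (fun p => p ≤ w), (1 - 1 / (p : ℝ))⁻¹ := by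
    apply prod_le_prod (fun _ _ => zero_le_one)
    intro p hp
    rw [mem_filter] at hp
    exact (one_le_inv₀ (fac_pos (Nat.prime_of_mem_primeFactors hp.1))).2 fac_le
  rw [prod_const_one] at h1
  rw [← prod_filter_mul_prod_filter_not m.primeFactors (fun p => p ≤ w)]
  have h2 : 0 ≤ ∏ p ∈ P2 m w, (1 - 1 / (p : ℝ))⁻¹ :=
    prod_nonneg fun p hp => inv_nonneg.2 (fac_pos (P2_prime hp)).le
  calc ∏ p ∈ P2 m w, (1 - 1 / (p : ℝ))⁻¹ = 1 * ∏ p ∈ P2 m w, (1 - 1 / (p : ℝ))⁻¹ := (one_mul _).symm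
    _ ≤ _ := mul_le_mul_of_nonneg_right h1 h2

/-- the product over the small primes -/
theorem P1_low (m w : ℕ) : 1 ≤ (∏ p ∈ P1 m w, (1 - 1 / (p : ℝ))) *
    ∏ p ∈ m.primeFactors, (1 - 1 / (p : ℝ))⁻¹ := by
  rw [← prod_filter_mul_prod_filter_not m.primeFactors (fun p => p ≤ w), ← mul_assoc]
  have h0 : (∏ p ∈ P1 m w, (1 - 1 / (p : ℝ))) *
      ∏ p ∈ m.primeFactors.filter (fun p => p ≤ w), (1 - 1 / (p : ℝ))⁻¹ = 1 := by
    rw [← P1, ← prod_mul_distrib]
    apply prod_eq_one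
    intro p hp
    exact mul_inv_cancel₀ (fac_pos (P1_prime hp)).ne'
  rw [h0, one_mul]
  exact gf_one_le m w

theorem tot_eq (m : ℕ) (hm : 1 ≤ m) : (m.totient : ℝ) / m = ∏ p ∈ m.primeFactors, (1 - 1 / (p : ℝ)) := by
  have h1 := Nat.totient_eq_mul_prod_factors m
  have h2 : (m.totient : ℝ) = (m : ℝ) * ∏ p ∈ m.primeFactors, (1 - (p : ℝ)⁻¹) := by
    have h3 := congrArg (fun q : ℚ => (q : ℝ)) h1
    push_cast at h3
    exact h3
  have hm0 : (m : ℝ) ≠ 0 := by exact_mod_cast (show m ≠ 0 by omega)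
  rw [h2, mul_div_cancel_left₀ _ hm0]
  simp only [one_div]

/-- `g φ(m) / m` -/
theorem gf_tot (m w : ℕ) (hm : 1 ≤ m) : (m.totient : ℝ) / m * gf m w = ∏ p ∈ P1 m w, (1 - 1 / (p : ℝ)) := by
  rw [tot_eq m hm, gf, ← prod_filter_mul_prod_filter_not m.primeFactors (fun p => p ≤ w), mul_assoc]
  have h0 : (∏ p ∈ m.primeFactors.filter (fun p => ¬ p ≤ w), (1 - 1 / (p : ℝ))) *
      ∏ p ∈ P2 m w, (1 - 1 / (p : ℝ))⁻¹ = 1 := by
    rw [← P2, ← prod_mul_distrib]
    apply prod_eq_one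
    intro p hp
    exact mul_inv_cancel₀ (fac_pos (P2_prime hp)).ne'
  rw [h0, mul_one]
  rfl

/-- the mass of the set -/
theorem mass (m w x H N h : ℕ) (hhN : h ≤ N) (S : Finset ℕ)
    (hS : ∀ n ∈ S, x + Wd m w * N < n ∧ n ≤ x + H ∧ n.Coprime m) :
    (h : ℝ) * (S.card * gf m w) ≤ ∑ a ∈ As m w x H, ∑ u ∈ Icc 1 h,
      (if a + Wd m w * u ∈ S then gf m w else 0) := by
  classical
  have hg0 : 0 ≤ gf m w := zero_le_one.trans (gf_one_le m w)
  rw [sum_comm]
  have key : ∀ u ∈ Icc 1 h, S.card * gf m w ≤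
      ∑ a ∈ As m w x H, (if a + Wd m w * u ∈ S then gf m w else 0) := by
    intro u hu
    rw [mem_Icc] at hu
    have hWu : Wd m w * u ≤ Wd m w * N := Nat.mul_le_mul_left _ (hu.2.trans hhN)
    have hinj : Set.InjOn (fun n => n - Wd m w * u) S := by
      intro n hn n' hn' h1
      have h2 := (hS n hn).1
      have h3 := (hS n' hn').1
      simp only at h1
      omega
    have hsub : S.image (fun n => n - Wd m w * u) ⊆ As m w x H := by
      intro a ha
      rw [mem_image] at ha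
      obtain ⟨n, hn, rfl⟩ := ha
      obtain ⟨h1, h2, h3⟩ := hS n hn
      rw [As, mem_filter, mem_Ioc]
      refine ⟨⟨by omega, by omega⟩, ?_⟩
      intro p hp hd
      have h4 : p ∣ Wd m w * u := Dvd.dvd.mul_right (dvd_prod_of_mem _ hp) u
      have h5 : p ∣ n := by
        have h6 : n = (n - Wd m w * u) + Wd m w * u := by omega
        rw [h6]
        exact dvd_add hd h4
      have hpm : p ∣ m := by
        rw [P1, mem_filter] at hp
        exact Nat.dvd_of_mem_primeFactors hp.1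
      have h7 := Nat.dvd_gcd h5 hpm
      rw [h3] at h7
      exact (P1_prime hp).one_lt.ne' (Nat.dvd_one.1 h7)
    refine le_trans ?_ (sum_le_sum_of_subset_of_nonneg hsub ?_)
    · rw [sum_image hinj]
      calc (S.card : ℝ) * gf m w = ∑ n ∈ S, gf m w := by rw [sum_const, nsmul_eq_mul]
        _ ≤ _ := by
          apply sum_le_sum
          intro n hn
          obtain ⟨h1, -, -⟩ := hS n hn
          have e1 : n - Wd m w * u + Wd m w * u = n := by omega
          rw [e1, if_pos hn]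
    · intro a _ _
      split_ifs
      · exact hg0
      · exact le_rfl
  calc (h : ℝ) * (S.card * gf m w) = ∑ u ∈ Icc 1 h, (S.card : ℝ) * gf m w := by
        rw [sum_const, nsmul_eq_mul, Nat.card_Icc, Nat.add_sub_cancel]
    _ ≤ _ := sum_le_sum key

/-- The relative Szemerédi theorem for the integers prime to `m`, with very small differences. -/
theorem ap_main (k : ℕ) (hk : 2 ≤ k) (ε θ : ℝ) (hε : 0 < ε) (hθ : 0 < θ) : ∃ B m₀ : ℕ, ∀ m : ℕ, m₀ ≤ m →
    ∀ x H : ℕ, (m : ℝ) ^ θ ≤ H → ∀ S : Finset ℕ, (∀ n ∈ S, x < n ∧ n ≤ x + H ∧ n.Coprime m) →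
    ε * ((m.totient : ℝ) / m * H) ≤ S.card →
    ∃ a d : ℕ, 1 ≤ d ∧ (d : ℝ) ≤ Real.log (Real.log m) ^ B ∧ ∀ j < k, a + j * d ∈ S := by
  classical
  obtain ⟨M, hM⟩ : ∃ M : ℕ, M = 2 * (k * 2 ^ k) := ⟨_, rfl⟩
  have hM1 : 1 ≤ M := by
    have h1 : 1 ≤ k * 2 ^ k := Nat.mul_pos (by omega) (by positivity)
    omega
  obtain ⟨η, c, hη, hc, Hrs⟩ := rsa k hk (ε / 12) (by positivity)
  rw [← hM] at Hrs
  obtain ⟨K, κ, hκ, hK, Hmaj⟩ := maj M hM1 η hη
  obtain ⟨C₀, hC₀, htot⟩ := tot_bound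
  obtain ⟨C₁, hC₁, hom⟩ := pow_omega (M + 2) (θ / 2) (by positivity)
  obtain ⟨B, hB⟩ : ∃ B : ℕ, B = (M + 1) * (2 * K + 1) := ⟨_, rfl⟩
  have hlog : Tendsto (fun m : ℕ => Real.log m) atTop atTop :=
    Real.tendsto_log_atTop.comp tendsto_natCast_atTop_atTop
  have hloglog : Tendsto (fun m : ℕ => Real.log (Real.log m)) atTop atTop :=
    Real.tendsto_log_atTop.comp hlog
  -- the conditions for large `m`
  have hev1 : ∀ᶠ m : ℕ in atTop, 8 * ((C₀ * Real.log (Real.log m)) ^ M / c + k + 6) ≤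
      Real.log (Real.log m) ^ (M + 1) := by
    have h1 : ∀ᶠ l : ℝ in atTop, 8 * ((C₀ * l) ^ M / c + k + 6) ≤ l ^ (M + 1) := by
      filter_upwards [eventually_ge_atTop (8 * (C₀ ^ M / c + k + 6)), eventually_ge_atTop 1] with l hl hl1
      have h2 : 1 ≤ l ^ M := one_le_pow₀ hl1
      calc 8 * ((C₀ * l) ^ M / c + k + 6) = 8 * ((C₀ ^ M / c) * l ^ M + (k + 6) * 1) := by
            rw [mul_pow]; ring
        _ ≤ 8 * ((C₀ ^ M / c) * l ^ M + (k + 6) * l ^ M) := by gcongr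
        _ = 8 * (C₀ ^ M / c + k + 6) * l ^ M := by ring
        _ ≤ l * l ^ M := by gcongr
        _ = l ^ (M + 1) := by rw [pow_succ]; ring
    exact hloglog.eventually h1
  have hev2 : ∀ a : ℕ, ∀ b : ℝ, ∀ᶠ m : ℕ in atTop, b * Real.log (Real.log m) ^ a ≤ (m : ℝ) ^ (θ / 2) := by
    intro a b
    have h4 : ∀ᶠ x : ℝ in atTop, ‖Real.log x ^ (a + 1)‖ ≤ 1 * ‖x ^ (θ / 2)‖ := by
      have h5 := (isLittleO_log_rpow_rpow_atTop (s := θ / 2) ((a + 1 : ℕ) : ℝ) (by positivity)).bound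
        (show (0 : ℝ) < 1 by norm_num)
      filter_upwards [h5] with x hx
      rw [Real.rpow_natCast] at hx
      exact hx
    have h5 := tendsto_natCast_atTop_atTop (R := ℝ) |>.eventually h4
    filter_upwards [h5, hlog.eventually_ge_atTop (max b 1), hloglog.eventually_ge_atTop 0] with m hm hm1 hm2
    have hl1 : 1 ≤ Real.log m := (le_max_right _ _).trans hm1
    have hlb : b ≤ Real.log m := (le_max_left _ _).trans hm1
    rw [one_mul, Real.norm_of_nonneg (by positivity), Real.norm_of_nonneg (by positivity)] at hm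
    have h6 : Real.log (Real.log m) ≤ Real.log m :=
      (Real.log_le_sub_one_of_pos (by linarith)).trans (by linarith)
    calc b * Real.log (Real.log m) ^ a ≤ Real.log m * Real.log m ^ a := by gcongr
      _ = Real.log m ^ (a + 1) := by rw [pow_succ]; ring
      _ ≤ _ := hm
  obtain ⟨m₀, hm₀⟩ := eventually_atTop.1 (htot.and (hev1.and ((hev2 (M + 1) (C₀ ^ (M + 1) * C₁ / κ)).and
    ((hev2 (B + 1) (2 * C₀ / ε)).and ((hloglog.eventually_ge_atTop 1).and (eventually_ge_atTop 3))))))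
  refine ⟨B, m₀, ?_⟩
  intro m hm x H hH S hS hcard
  obtain ⟨hg, h1, h2, h3, hl1, hm3⟩ := hm₀ m hm
  obtain ⟨l, hl⟩ : ∃ l : ℝ, l = Real.log (Real.log m) := ⟨_, rfl⟩
  rw [← hl] at hg h1 h2 h3 hl1 ⊢
  obtain ⟨T, hT⟩ : ∃ T : ℝ, T = (C₀ * l) ^ M / c + k + 6 := ⟨_, rfl⟩
  rw [← hT] at h1
  have hm0 : (0 : ℝ) < m := by exact_mod_cast (show 0 < m by omega)
  have hm1 : (1 : ℝ) ≤ m := by exact_mod_cast (show 1 ≤ m by omega)
  have hpos1 : 0 ≤ (C₀ * l) ^ M / c := by positivity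
  have hT6 : 6 ≤ T := by
    rw [hT]
    have : (0 : ℝ) ≤ k := Nat.cast_nonneg k
    linarith
  -- the power of two and the prime
  obtain ⟨t, ht⟩ : ∃ t : ℕ, t = ⌈T⌉₊ := ⟨_, rfl⟩
  have hTt : T ≤ t := by rw [ht]; exact Nat.le_ceil T
  have htT : (t : ℝ) < T + 1 := by rw [ht]; exact Nat.ceil_lt_add_one (by linarith)
  have ht2 : 1 < t := by
    have : (1 : ℝ) < t := by linarith
    exact_mod_cast this
  obtain ⟨s', hs'⟩ : ∃ s' : ℕ, s' = Nat.clog 2 t := ⟨_, rfl⟩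
  have hts : t ≤ 2 ^ s' := by rw [hs']; exact Nat.le_pow_clog (by norm_num) t
  have hst : 2 ^ s' < 2 * t := by
    have h4 := Nat.pow_pred_clog_lt_self (b := 2) (by norm_num) ht2
    have h5 : 0 < Nat.clog 2 t := Nat.clog_pos (by norm_num) ht2
    rw [← hs'] at h4 h5
    have h6 : 2 ^ s' = 2 * 2 ^ s'.pred := by
      rw [← pow_succ']
      congr 1
      exact (Nat.succ_pred_eq_of_pos h5).symm
    omega
  obtain ⟨N, hNp, hN1, hN2⟩ := Nat.exists_prime_lt_and_le_two_mul (2 ^ s') (by positivity)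
  obtain ⟨s, hs⟩ : ∃ s : ℕ, s = s' + 1 := ⟨_, rfl⟩
  have hNs : N ≤ 2 ^ s := by rw [hs, pow_succ']; exact hN2
  have hTN : T ≤ N := hTt.trans (by exact_mod_cast (show t ≤ N by omega))
  have h2s : (2 : ℝ) ^ s ≤ 8 * T := by
    have h4 : 2 ^ s ≤ 4 * t := by rw [hs, pow_succ']; omega
    have h5 : (2 : ℝ) ^ s ≤ 4 * t := by exact_mod_cast h4
    linarith
  obtain ⟨w, hw⟩ : ∃ w : ℕ, w = K * s := ⟨_, rfl⟩
  obtain ⟨W, hW⟩ : ∃ W : ℕ, W = Wd m w := ⟨_, rfl⟩
  have hWN : ((W * N : ℕ) : ℝ) ≤ l ^ B := by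
    have h4 : W * N ≤ (2 ^ s) ^ (2 * K + 1) := by
      calc W * N ≤ 4 ^ w * 2 ^ s := by
            rw [hW]
            exact Nat.mul_le_mul (Wd_le m w) hNs
        _ = (2 ^ s) ^ (2 * K + 1) := by
            rw [hw, show (4 : ℕ) = 2 ^ 2 by norm_num, ← pow_mul, ← pow_mul, ← pow_add]
            congr 1
            ring
    calc ((W * N : ℕ) : ℝ) ≤ (((2 ^ s) ^ (2 * K + 1) : ℕ) : ℝ) := by exact_mod_cast h4
      _ = ((2 : ℝ) ^ s) ^ (2 * K + 1) := by push_cast; ring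
      _ ≤ (8 * T) ^ (2 * K + 1) := by gcongr
      _ ≤ (l ^ (M + 1)) ^ (2 * K + 1) := by gcongr
      _ = l ^ B := by rw [← pow_mul, hB]
  -- the conditions
  have hl0 : 0 < l := by linarith
  have hCl : 1 ≤ C₀ * l := by nlinarith
  have hgf : gf m w ≤ C₀ * l := (gf_le m w).trans hg
  have hg1 : 1 ≤ gf m w := gf_one_le m w
  obtain ⟨p1, hp1⟩ : ∃ p1 : ℝ, p1 = ∏ p ∈ P1 m w, (1 - 1 / (p : ℝ)) := ⟨_, rfl⟩
  have hp10 : 0 < p1 := by rw [hp1]; exact prod_pos fun p hp => fac_pos (P1_prime hp)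
  have hp1l : 1 ≤ p1 * (C₀ * l) := by
    have h4 := P1_low m w
    rw [← hp1] at h4
    exact h4.trans (mul_le_mul_of_nonneg_left hg hp10.le)
  have hZ : Zf m w H = H * p1 := by rw [Zf, hp1]
  have hmθ : 0 < (m : ℝ) ^ θ := by positivity
  have hH0 : (0 : ℝ) < H := by linarith
  have hmθ2 : (m : ℝ) ^ θ = (m : ℝ) ^ (θ / 2) * (m : ℝ) ^ (θ / 2) := by
    rw [← Real.rpow_add hm0]; congr 1; ring
  have hmθ1 : 1 ≤ (m : ℝ) ^ (θ / 2) := Real.one_le_rpow hm1 (by positivity)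
  have hE : gf m w ^ M * ((M + 2 : ℕ) : ℝ) ^ m.primeFactors.card ≤ κ * Zf m w H := by
    have h4 : gf m w ^ M ≤ (C₀ * l) ^ M := by gcongr
    have h5 := hom m (by omega)
    have h6 : C₀ ^ (M + 1) * C₁ / κ * l ^ (M + 1) * κ = (C₀ * l) ^ (M + 1) * C₁ := by
      rw [mul_pow]
      field_simp
    have h7 : (C₀ * l) ^ (M + 1) * C₁ ≤ (m : ℝ) ^ (θ / 2) * κ := by
      rw [← h6]
      gcongr
    have h8 : (C₀ * l) ^ (M + 1) * C₁ * (m : ℝ) ^ (θ / 2) ≤ κ * H := by
      calc (C₀ * l) ^ (M + 1) * C₁ * (m : ℝ) ^ (θ / 2) ≤ ((m : ℝ) ^ (θ / 2) * κ) * (m : ℝ) ^ (θ / 2) := by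
            gcongr
        _ = κ * (m : ℝ) ^ θ := by rw [hmθ2]; ring
        _ ≤ κ * H := by gcongr
    have h9 : (C₀ * l) ^ M * (C₁ * (m : ℝ) ^ (θ / 2)) ≤ κ * H * p1 := by
      have h10 : (C₀ * l) ^ (M + 1) * C₁ * (m : ℝ) ^ (θ / 2) =
          ((C₀ * l) ^ M * (C₁ * (m : ℝ) ^ (θ / 2))) * (C₀ * l) := by rw [pow_succ]; ring
      rw [h10] at h8
      calc (C₀ * l) ^ M * (C₁ * (m : ℝ) ^ (θ / 2)) = (C₀ * l) ^ M * (C₁ * (m : ℝ) ^ (θ / 2)) * 1 := (mul_one _).symm
        _ ≤ (C₀ * l) ^ M * (C₁ * (m : ℝ) ^ (θ / 2)) * (p1 * (C₀ * l)) := by gcongr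
        _ = (((C₀ * l) ^ M * (C₁ * (m : ℝ) ^ (θ / 2))) * (C₀ * l)) * p1 := by ring
        _ ≤ κ * H * p1 := by gcongr
    rw [hZ, ← mul_assoc]
    refine le_trans ?_ h9
    exact mul_le_mul h4 h5 (by positivity) (by positivity)
  have hZ0 : 0 < Zf m w H := by rw [hZ]; positivity
  have hs1 : 1 ≤ s := by omega
  obtain ⟨hmG, hAne, hAu⟩ := by
    rw [hw] at hE hZ0
    exact Hmaj m s N x H hs1 hNs hE hZ0
  rw [← hw] at hmG hAne hAu
  obtain ⟨h, hh⟩ : ∃ h : ℕ, h = (N - 1) / 2 := ⟨_, rfl⟩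
  have hhN : h ≤ N := by omega
  have hN5 : 5 ≤ N := by
    have : (5 : ℝ) ≤ N := by linarith
    exact_mod_cast this
  have h3h : (N : ℝ) ≤ 3 * h := by
    have : N ≤ 3 * h := by omega
    exact_mod_cast this
  have hkN : k < N := by
    have h4 : (k : ℝ) < N := by
      have : (k : ℝ) < T := by rw [hT]; linarith
      linarith
    exact_mod_cast h4
  -- the large elements of `S`
  obtain ⟨S', hS'⟩ : ∃ S' : Finset ℕ, S' = S.filter (fun n => x + W * N < n) := ⟨_, rfl⟩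
  have hS'c : (S.card : ℝ) ≤ S'.card + ((W * N : ℕ) : ℝ) := by
    have h4 := card_filter_add_card_filter_not (s := S) (fun n => x + W * N < n)
    have h5 : (S.filter (fun n => ¬ x + W * N < n)).card ≤ W * N := by
      calc (S.filter (fun n => ¬ x + W * N < n)).card ≤ (Ioc x (x + W * N)).card := by
            apply card_le_card
            intro n hn
            rw [mem_filter] at hn
            rw [mem_Ioc]
            exact ⟨(hS n hn.1).1, not_lt.1 hn.2⟩
        _ = W * N := by rw [Nat.card_Ioc]; omega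
    rw [← hS'] at h4
    exact_mod_cast (show S.card ≤ S'.card + W * N by omega)
  have hS'm := mass m w x H N h hhN S' (by
    intro n hn
    rw [hS', mem_filter] at hn
    obtain ⟨h4, h5, h6⟩ := hS n hn.1
    rw [hW] at hn
    exact ⟨hn.2, h5, h6⟩)
  have hφ : (m.totient : ℝ) / m * gf m w = p1 := by rw [gf_tot m w (by omega), hp1]
  have hφ0 : 0 ≤ (m.totient : ℝ) / m := by positivity
  have hφl : 1 ≤ (m.totient : ℝ) / m * (C₀ * l) := by
    have h4 : 1 ≤ (m.totient : ℝ) / m * ∏ p ∈ m.primeFactors, (1 - 1 / (p : ℝ))⁻¹ := by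
      rw [tot_eq m (by omega), ← prod_mul_distrib]
      apply le_of_eq
      symm
      apply prod_eq_one
      intro p hp
      exact mul_inv_cancel₀ (fac_pos (Nat.prime_of_mem_primeFactors hp)).ne'
    exact h4.trans (mul_le_mul_of_nonneg_left hg hφ0)
  have hWH : ((W * N : ℕ) : ℝ) ≤ ε / 2 * ((m.totient : ℝ) / m * H) := by
    refine hWN.trans ?_
    have h4 : 2 * C₀ / ε * l ^ (B + 1) ≤ H := by
      refine h3.trans (le_trans ?_ hH)
      rw [hmθ2]
      exact le_mul_of_one_le_right (by positivity) hmθ1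
    calc l ^ B = ε / 2 * ((2 * C₀ / ε * l ^ (B + 1)) * (1 / (C₀ * l))) := by
          rw [pow_succ]; field_simp
      _ ≤ ε / 2 * (H * ((m.totient : ℝ) / m)) := by
          apply mul_le_mul_of_nonneg_left _ (by positivity)
          apply mul_le_mul h4 _ (by positivity) hH0.le
          rw [div_le_iff₀ (by positivity)]
          exact hφl
      _ = ε / 2 * ((m.totient : ℝ) / m * H) := by ring
  have hS'l : ε / 2 * ((m.totient : ℝ) / m * H) ≤ S'.card := by linarith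
  have hfin := Hrs N hNp hkN hN5 (As m w x H) (Gw m w) (gf m w) hAne hg1 hmG
    (by
      calc gf m w ^ M ≤ (C₀ * l) ^ M := by gcongr
        _ = c * ((C₀ * l) ^ M / c) := by field_simp
        _ ≤ c * N := by
          apply mul_le_mul_of_nonneg_left _ hc.le
          refine le_trans ?_ hTN
          rw [hT]
          have : (0 : ℝ) ≤ k := Nat.cast_nonneg k
          linarith)
    (fun a u => if a + Wd m w * u ∈ S' then gf m w else 0)
    (by
      intro a _ u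
      split_ifs with h4
      · refine ⟨by linarith, ?_⟩
        rw [Gw, if_pos]
        intro p hp hd
        rw [hS', mem_filter] at h4
        have h5 := (hS _ h4.1).2.2
        have hpm : p ∣ m := by
          rw [P2, mem_filter] at hp
          exact Nat.dvd_of_mem_primeFactors hp.1
        have h7 := Nat.dvd_gcd hd hpm
        rw [h5] at h7
        exact (P2_prime hp).one_lt.ne' (Nat.dvd_one.1 h7)
      · refine ⟨le_rfl, ?_⟩
        unfold Gw
        split_ifs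
        · linarith
        · exact le_rfl)
    (by
      rw [← hh]
      refine le_trans ?_ hS'm
      have h4 : ε / 2 * Zf m w H ≤ S'.card * gf m w := by
        calc ε / 2 * Zf m w H = (ε / 2 * ((m.totient : ℝ) / m * H)) * gf m w := by
              rw [hZ, ← hφ]; ring
          _ ≤ S'.card * gf m w := by gcongr
      calc ε / 12 * ((As m w x H).card : ℝ) * N ≤ ε / 12 * (2 * Zf m w H) * (3 * h) := by gcongr
        _ = h * (ε / 2 * Zf m w H) := by ring
        _ ≤ h * (S'.card * gf m w) := by gcongr)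
  obtain ⟨a, _, u, r, hu, hr, hap⟩ := hfin
  have hr1 : r ≤ N := by
    have h1 := (hap 1 (by omega)).1
    rw [← hh] at h1
    omega
  refine ⟨a + W * u, W * r, ?_, ?_, ?_⟩
  · rw [hW]
    exact Nat.mul_pos (Wd_pos m w) hr
  · refine le_trans ?_ hWN
    exact_mod_cast Nat.mul_le_mul_left W hr1
  · intro j hj
    have h4 := (hap j hj).2
    by_contra hcon
    apply h4
    rw [if_neg]
    intro h5
    apply hcon
    rw [hS', mem_filter, ← hW] at h5
    have e : a + W * (u + j * r) = a + W * u + j * (W * r) := by ring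
    rw [e] at h5
    exact h5.1

end Pool.Agent.Y848.RC
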