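import Pool.Agent.Helper256.KM.Mertens

/-!
Elementary bounds for `m / φ(m)` and for `c ^ ω(m)`.
-/

set_option autoImplicit false

namespace Pool.Agent.Y848.RC

open Finset Filter

/-- the number of prime factors -/
theorem two_pow_card_le (n : ℕ) (hn : n ≠ 0) : 2 ^ n.primeFactors.card ≤ n := by
  calc 2 ^ n.primeFactors.card = ∏ _p ∈ n.primeFactors, 2 := by rw [prod_const]
    _ ≤ ∏ p ∈ n.primeFactors, p :=
      prod_le_prod' fun p hp => (Nat.prime_of_mem_primeFactors hp).two_le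
    _ ≤ n := Nat.le_of_dvd (Nat.pos_of_ne_zero hn) (Nat.prod_primeFactors_dvd n)

/-- `m / φ(m) ≤ C log log m` -/
theorem tot_bound : ∃ C : ℝ, 1 ≤ C ∧ ∀ᶠ m : ℕ in atTop,
    ∏ p ∈ m.primeFactors, (1 - 1 / (p : ℝ))⁻¹ ≤ C * Real.log (Real.log m) := by
  obtain ⟨C, hC⟩ := Pool.Agent.Helper256.KM.mertens_inv
  have hC0 : 0 ≤ C := (abs_nonneg _).trans (hC 3 le_rfl)
  have hlog : Tendsto (fun m : ℕ => Real.log m) atTop atTop :=
    Real.tendsto_log_atTop.comp tendsto_natCast_atTop_atTop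
  refine ⟨Real.exp (C + 8), ?_, ?_⟩
  · rw [← Real.exp_zero]
    apply Real.exp_le_exp.2
    linarith
  filter_upwards [hlog.eventually_ge_atTop 10, eventually_ge_atTop 3] with m hm hm3
  obtain ⟨l, hl⟩ : ∃ l : ℝ, l = Real.log m := ⟨_, rfl⟩
  rw [← hl] at hm ⊢
  have hl0 : 0 < l := by linarith
  obtain ⟨y, hy⟩ : ∃ y : ℕ, y = ⌊l⌋₊ := ⟨_, rfl⟩
  have hyl : (y : ℝ) ≤ l := by rw [hy]; exact Nat.floor_le hl0.le
  have hly : l < y + 1 := by rw [hy]; exact Nat.lt_floor_add_one l
  have hy3 : 3 ≤ y := by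
    have : (3 : ℝ) ≤ y := by linarith
    exact_mod_cast this
  have hω : (m.primeFactors.card : ℝ) ≤ 2 * l := by
    have h1 := two_pow_card_le m (by omega)
    have h2 : ((2 : ℝ) ^ m.primeFactors.card) ≤ m := by exact_mod_cast h1
    have h3 := Real.log_le_log (by positivity) h2
    rw [Real.log_pow, ← hl] at h3
    have h4 := Real.log_two_gt_d9
    nlinarith [(Nat.cast_nonneg m.primeFactors.card : (0 : ℝ) ≤ m.primeFactors.card)]
  -- each factor
  have hfac : ∀ p ∈ m.primeFactors, (1 - 1 / (p : ℝ))⁻¹ ≤ Real.exp (1 / p + 2 * ((p : ℝ) ^ 2)⁻¹) := by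
    intro p hp
    have hp2 : (2 : ℝ) ≤ p := by exact_mod_cast (Nat.prime_of_mem_primeFactors hp).two_le
    obtain ⟨t, ht⟩ : ∃ t : ℝ, t = 1 / (p : ℝ) := ⟨_, rfl⟩
    have ht0 : 0 < t := by rw [ht]; positivity
    have ht1 : t ≤ 1 / 2 := by
      rw [ht]
      exact one_div_le_one_div_of_le two_pos hp2
    have e : 2 * ((p : ℝ) ^ 2)⁻¹ = 2 * t ^ 2 := by rw [ht]; field_simp
    rw [← ht, e]
    have h1 : 1 + (t + 2 * t ^ 2) ≤ Real.exp (t + 2 * t ^ 2) := by
      have := Real.add_one_le_exp (t + 2 * t ^ 2)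
      linarith
    refine le_trans ?_ h1
    rw [inv_le_comm₀ (by linarith) (by positivity), inv_le_comm₀ (by positivity) (by linarith)]
    rw [inv_le_iff_one_le_mul₀ (by linarith)]
    nlinarith [mul_nonneg ht0.le ht0.le, mul_nonneg (mul_nonneg ht0.le ht0.le) (show (0 : ℝ) ≤ 1 - 2 * t by linarith)]
  have h1 : ∏ p ∈ m.primeFactors, (1 - 1 / (p : ℝ))⁻¹ ≤
      Real.exp (∑ p ∈ m.primeFactors, (1 / (p : ℝ) + 2 * ((p : ℝ) ^ 2)⁻¹)) := by
    rw [Real.exp_sum]
    apply prod_le_prod _ hfac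
    intro p hp
    have hp2 : (2 : ℝ) ≤ p := by exact_mod_cast (Nat.prime_of_mem_primeFactors hp).two_le
    have : 1 / (p : ℝ) ≤ 1 / 2 := one_div_le_one_div_of_le two_pos hp2
    exact inv_nonneg.2 (by linarith)
  refine h1.trans ?_
  have h2 : ∑ p ∈ m.primeFactors, (2 : ℝ) * ((p : ℝ) ^ 2)⁻¹ ≤ 4 := by
    rw [← mul_sum]
    have h3 : m.primeFactors ⊆ Ioo 1 (m + 1) := by
      intro p hp
      rw [mem_Ioo]
      exact ⟨(Nat.prime_of_mem_primeFactors hp).one_lt,
        Nat.lt_succ_of_le (Nat.le_of_mem_primeFactors hp)⟩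
    have h4 : ∑ p ∈ m.primeFactors, ((p : ℝ) ^ 2)⁻¹ ≤ 2 / ((1 : ℕ) + 1) :=
      (sum_le_sum_of_subset_of_nonneg h3 (fun p _ _ => by positivity)).trans (sum_Ioo_inv_sq_le 1 _)
    norm_num at h4 ⊢
    linarith
  have h3 : ∑ p ∈ m.primeFactors, 1 / (p : ℝ) ≤ Real.log (Real.log l) + C + 3 := by
    have h4 : ∑ p ∈ m.primeFactors, 1 / (p : ℝ) =
        ∑ p ∈ m.primeFactors.filter (fun p => p ≤ y), 1 / (p : ℝ) +
        ∑ p ∈ m.primeFactors.filter (fun p => ¬ p ≤ y), 1 / (p : ℝ) :=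
      (sum_filter_add_sum_filter_not _ _ _).symm
    have h5 : ∑ p ∈ m.primeFactors.filter (fun p => p ≤ y), 1 / (p : ℝ) ≤
        Real.log (Real.log l) + C := by
      calc ∑ p ∈ m.primeFactors.filter (fun p => p ≤ y), 1 / (p : ℝ)
          ≤ ∑ p ∈ (Finset.Icc 1 y).filter Nat.Prime, (1 : ℝ) / p := by
            apply sum_le_sum_of_subset_of_nonneg
            · intro p hp
              rw [mem_filter] at hp
              have hpp := Nat.prime_of_mem_primeFactors hp.1
              rw [mem_filter, mem_Icc]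
              exact ⟨⟨hpp.one_lt.le, hp.2⟩, hpp⟩
            · intro p _ _
              positivity
        _ ≤ Real.log (Real.log y) + C := by
            have := (abs_le.1 (hC y hy3)).2
            linarith
        _ ≤ Real.log (Real.log l) + C := by
            have hy0 : (3 : ℝ) ≤ y := by exact_mod_cast hy3
            have h6 : 0 < Real.log y := Real.log_pos (by linarith)
            have h7 : Real.log y ≤ Real.log l := Real.log_le_log (by linarith) hyl
            have := Real.log_le_log h6 h7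
            linarith
    have h6 : ∑ p ∈ m.primeFactors.filter (fun p => ¬ p ≤ y), 1 / (p : ℝ) ≤ 3 := by
      calc ∑ p ∈ m.primeFactors.filter (fun p => ¬ p ≤ y), 1 / (p : ℝ)
          ≤ ∑ p ∈ m.primeFactors.filter (fun p => ¬ p ≤ y), 1 / l := by
            apply sum_le_sum
            intro p hp
            rw [mem_filter] at hp
            apply one_div_le_one_div_of_le hl0
            have : ((y : ℝ) + 1) ≤ p := by exact_mod_cast (show y + 1 ≤ p by omega)
            linarith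
        _ = ((m.primeFactors.filter (fun p => ¬ p ≤ y)).card : ℝ) * (1 / l) := by
            rw [sum_const, nsmul_eq_mul]
        _ ≤ (2 * l) * (1 / l) := by
            apply mul_le_mul_of_nonneg_right _ (by positivity)
            refine le_trans ?_ hω
            exact_mod_cast card_filter_le _ _
        _ ≤ 3 := by
            rw [mul_one_div, mul_div_assoc, div_self hl0.ne']
            norm_num
    rw [h4]
    linarith
  calc Real.exp (∑ p ∈ m.primeFactors, (1 / (p : ℝ) + 2 * ((p : ℝ) ^ 2)⁻¹))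
      ≤ Real.exp ((C + 8) + Real.log (Real.log l)) := by
        apply Real.exp_le_exp.2
        rw [sum_add_distrib]
        linarith
    _ = Real.exp (C + 8) * l.log := by
        rw [Real.exp_add, Real.exp_log (Real.log_pos (by linarith))]

/-- `c ^ ω(m) ≤ C m ^ θ` -/
theorem pow_omega (c : ℕ) (θ : ℝ) (hθ : 0 < θ) : ∃ C : ℝ, 1 ≤ C ∧ ∀ m : ℕ, 1 ≤ m →
    (c : ℝ) ^ m.primeFactors.card ≤ C * (m : ℝ) ^ θ := by
  obtain ⟨c', hc'⟩ : ∃ c' : ℝ, c' = max (c : ℝ) 1 := ⟨_, rfl⟩
  have hc1 : 1 ≤ c' := by rw [hc']; exact le_max_right _ _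
  have hcc : (c : ℝ) ≤ c' := by rw [hc']; exact le_max_left _ _
  obtain ⟨T, hT⟩ : ∃ T : ℕ, c' ^ (1 / θ) ≤ T := exists_nat_ge _
  refine ⟨c' ^ T, one_le_pow₀ hc1, ?_⟩
  intro m hm
  have hm0 : (0 : ℝ) < m := by exact_mod_cast hm
  have h1 : (c : ℝ) ^ m.primeFactors.card ≤ c' ^ m.primeFactors.card :=
    pow_le_pow_left₀ (Nat.cast_nonneg _) hcc _
  refine h1.trans ?_
  have h2 : m.primeFactors.card = (m.primeFactors.filter (fun p => p ≤ T)).card +
      (m.primeFactors.filter (fun p => ¬ p ≤ T)).card :=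
    (card_filter_add_card_filter_not _).symm
  rw [h2, pow_add]
  have h3 : (m.primeFactors.filter (fun p => p ≤ T)).card ≤ T := by
    calc (m.primeFactors.filter (fun p => p ≤ T)).card ≤ (Icc 1 T).card := by
          apply card_le_card
          intro p hp
          rw [mem_filter] at hp
          rw [mem_Icc]
          exact ⟨(Nat.prime_of_mem_primeFactors hp.1).one_lt.le, hp.2⟩
      _ = T := by rw [Nat.card_Icc]; omega
  have h4 : c' ^ (m.primeFactors.filter (fun p => ¬ p ≤ T)).card ≤ (m : ℝ) ^ θ := by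
    calc c' ^ (m.primeFactors.filter (fun p => ¬ p ≤ T)).card
        = ∏ _p ∈ m.primeFactors.filter (fun p => ¬ p ≤ T), c' := by rw [prod_const]
      _ ≤ ∏ p ∈ m.primeFactors.filter (fun p => ¬ p ≤ T), (p : ℝ) ^ θ := by
          apply prod_le_prod (fun _ _ => by linarith)
          intro p hp
          rw [mem_filter] at hp
          have hp0 : (T : ℝ) ≤ p := by exact_mod_cast (not_le.1 hp.2).le
          have h5 : c' ^ (1 / θ) ≤ p := hT.trans hp0
          calc c' = (c' ^ (1 / θ)) ^ θ := by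
                rw [← Real.rpow_mul (by linarith), one_div, inv_mul_cancel₀ hθ.ne', Real.rpow_one]
            _ ≤ (p : ℝ) ^ θ := Real.rpow_le_rpow (by positivity) h5 hθ.le
      _ = ((∏ p ∈ m.primeFactors.filter (fun p => ¬ p ≤ T), p : ℕ) : ℝ) ^ θ := by
          rw [Nat.cast_prod, Real.finsetProd_rpow _ _ (fun p _ => Nat.cast_nonneg p)]
      _ ≤ (m : ℝ) ^ θ := by
          apply Real.rpow_le_rpow (Nat.cast_nonneg _) _ hθ.le
          have h5 : ∏ p ∈ m.primeFactors.filter (fun p => ¬ p ≤ T), p ∣ m :=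
            (prod_dvd_prod_of_subset _ _ _ (filter_subset _ _)).trans (Nat.prod_primeFactors_dvd m)
          exact_mod_cast Nat.le_of_dvd hm h5
  apply mul_le_mul (pow_le_pow_right₀ hc1 h3) h4 (by positivity) (by positivity)

end Pool.Agent.Y848.RC
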