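import Pool.Agent.Y855.B2
import Pool.Agent.Y848.RC.Cnt
import Pool.Agent.Y848.RC.Tot

/-!
The weights attached to the integers prime to `m`, after removal of the small prime factors of `m`.
-/

set_option autoImplicit false

namespace Pool.Agent.Y848.RC

open Finset Filter
open Pool.Agent.Y855 (MajG rsa)

/-- the small prime factors of `m` -/
def P1 (m w : ℕ) : Finset ℕ := m.primeFactors.filter (fun p => p ≤ w)

/-- the large prime factors of `m` -/
def P2 (m w : ℕ) : Finset ℕ := m.primeFactors.filter (fun p => ¬ p ≤ w)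

/-- the product of the small prime factors -/
def Wd (m w : ℕ) : ℕ := ∏ p ∈ P1 m w, p

/-- the normalising factor -/
noncomputable def gf (m w : ℕ) : ℝ := ∏ p ∈ P2 m w, (1 - 1 / (p : ℝ))⁻¹

/-- the expected number of integers prime to the small prime factors -/
noncomputable def Zf (m w H : ℕ) : ℝ := (H : ℝ) * ∏ p ∈ P1 m w, (1 - 1 / (p : ℝ))

open Classical in
/-- the set of the starting points -/
noncomputable def As (m w x H : ℕ) : Finset ℕ := (Ioc x (x + H)).filter (fun a => ∀ p ∈ P1 m w, ¬ p ∣ a)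

open Classical in
/-- the weights -/
noncomputable def Gw (m w a u : ℕ) : ℝ := if ∀ p ∈ P2 m w, ¬ p ∣ a + Wd m w * u then gf m w else 0

theorem P1_prime {m w p : ℕ} (h : p ∈ P1 m w) : p.Prime := by
  rw [P1, mem_filter] at h
  exact Nat.prime_of_mem_primeFactors h.1

theorem P2_prime {m w p : ℕ} (h : p ∈ P2 m w) : p.Prime := by
  rw [P2, mem_filter] at h
  exact Nat.prime_of_mem_primeFactors h.1

theorem P2_lt {m w p : ℕ} (h : p ∈ P2 m w) : w < p := by
  rw [P2, mem_filter] at h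
  exact not_le.1 h.2

theorem fac_pos {p : ℕ} (h : p.Prime) : (0 : ℝ) < 1 - 1 / (p : ℝ) := by
  have hp2 : (2 : ℝ) ≤ p := by exact_mod_cast h.two_le
  have : 1 / (p : ℝ) ≤ 1 / 2 := one_div_le_one_div_of_le two_pos hp2
  linarith

theorem fac_le {p : ℕ} : 1 - 1 / (p : ℝ) ≤ 1 := by
  have : (0 : ℝ) ≤ 1 / (p : ℝ) := by positivity
  linarith

theorem gf_one_le (m w : ℕ) : 1 ≤ gf m w := by
  unfold gf
  have h1 : ∏ _p ∈ P2 m w, (1 : ℝ) ≤ ∏ p ∈ P2 m w, (1 - 1 / (p : ℝ))⁻¹ := by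
    apply prod_le_prod (fun _ _ => zero_le_one)
    intro p hp
    exact (one_le_inv₀ (fac_pos (P2_prime hp))).2 fac_le
  simpa using h1

theorem P2_ndvd_W {m w p : ℕ} (h : p ∈ P2 m w) : ¬ p ∣ Wd m w := by
  intro hd
  rw [Wd, Prime.dvd_finsetProd_iff (P2_prime h).prime] at hd
  obtain ⟨q, hq, hpq⟩ := hd
  have h1 := (Nat.prime_dvd_prime_iff_eq (P2_prime h) (P1_prime hq)).1 hpq
  rw [h1] at h
  have h2 := P2_lt h
  rw [P1, mem_filter] at hq
  omega

theorem Wd_pos (m w : ℕ) : 1 ≤ Wd m w := Finset.prod_pos fun _ hp => (P1_prime hp).pos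

theorem Wd_le (m w : ℕ) : Wd m w ≤ 4 ^ w := by
  refine le_trans ?_ (primorial_le_four_pow w)
  unfold Wd primorial
  apply prod_le_prod_of_subset_of_one_le'
  · intro p hp
    have h1 := P1_prime hp
    rw [P1, mem_filter] at hp
    rw [mem_filter, mem_range]
    exact ⟨by omega, h1⟩
  · intro p hp _
    rw [mem_filter] at hp
    exact hp.2.one_lt.le

/-- the forbidden classes -/
def Fc (W j : ℕ) (u : Fin j → ℕ) (p : ℕ) : Finset ℕ := (range p).filter (fun c => ∃ i, p ∣ c + W * u i)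

/-- the class of `-t` -/
theorem neg_class {p c t : ℕ} (hp : 0 < p) (hc : c < p) (h : p ∣ c + t) : c = (p - t % p) % p := by
  have h1 : p ∣ c + t % p := by
    have h2 : c + t = c + t % p + p * (t / p) := by
      have := Nat.mod_add_div t p
      omega
    rw [h2] at h
    exact (Nat.dvd_add_left (Dvd.intro _ rfl)).1 h
  have ht : t % p < p := Nat.mod_lt _ hp
  obtain ⟨e, he⟩ := h1
  have he2 : e < 2 := by
    by_contra hcon
    have : p * 2 ≤ p * e := Nat.mul_le_mul_left p (by omega)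
    omega
  interval_cases e
  · have h3 : c = 0 ∧ t % p = 0 := by omega
    rw [h3.1, h3.2]
    simp
  · have h3 : p - t % p = c := by omega
    rw [h3, Nat.mod_eq_of_lt hc]

theorem neg_class_dvd {p t : ℕ} (hp : 0 < p) : p ∣ (p - t % p) % p + t := by
  have ht : t % p < p := Nat.mod_lt _ hp
  have h0 : (p - t % p) % p + t ≡ (p - t % p) + t % p [MOD p] :=
    Nat.ModEq.add (Nat.mod_modEq _ _) (Nat.mod_modEq _ _).symm
  have h1 : (p - t % p) + t % p = p := by omega
  rw [h1] at h0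
  exact (Nat.modEq_zero_iff_dvd).1 (h0.trans (by simp [Nat.ModEq]))

theorem Fc_sub (W j : ℕ) (u : Fin j → ℕ) (p : ℕ) :
    Fc W j u p ⊆ univ.image (fun i => (p - (W * u i) % p) % p) := by
  intro c hc
  rw [Fc, mem_filter, mem_range] at hc
  obtain ⟨h1, i, hi⟩ := hc
  rw [mem_image]
  exact ⟨i, mem_univ _, (neg_class (by omega) h1 hi).symm⟩

theorem Fc_card_le (W j : ℕ) (u : Fin j → ℕ) (p : ℕ) : (Fc W j u p).card ≤ j := by
  calc (Fc W j u p).card ≤ (univ.image (fun i => (p - (W * u i) % p) % p)).card :=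
        card_le_card (Fc_sub W j u p)
    _ ≤ (univ : Finset (Fin j)).card := card_image_le
    _ = j := by rw [card_univ, Fintype.card_fin]

theorem Fc_bad (W j : ℕ) (u : Fin j → ℕ) (p : ℕ) (hp : p.Prime) (hW : ¬ p ∣ W)
    (h : (Fc W j u p).card ≠ j) : ∃ i i' : Fin j, i ≠ i' ∧ p ∣ Nat.dist (u i) (u i') := by
  by_contra hcon
  push Not at hcon
  apply h
  have hinj : Function.Injective (fun i : Fin j => (p - (W * u i) % p) % p) := by
    intro i i' hii
    by_contra hne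
    apply hcon i i' hne
    simp only at hii
    have h1 := neg_class_dvd (p := p) (t := W * u i) hp.pos
    have h2 := neg_class_dvd (p := p) (t := W * u i') hp.pos
    rw [← hii] at h2
    have hWp : Nat.Coprime W p := ((Nat.Prime.coprime_iff_not_dvd hp).2 hW).symm
    have h3 : u i ≡ u i' [MOD p] := by
      have h4 : (p - (W * u i) % p) % p + W * u i ≡ (p - (W * u i) % p) % p + W * u i' [MOD p] :=
        ((Nat.modEq_zero_iff_dvd).2 h1).trans ((Nat.modEq_zero_iff_dvd).2 h2).symm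
      have h5 : W * u i ≡ W * u i' [MOD p] := Nat.ModEq.add_left_cancel' _ h4
      exact Nat.ModEq.cancel_left_of_coprime (by rw [Nat.gcd_comm]; exact hWp) h5
    rcases le_total (u i) (u i') with h4 | h4
    · rw [Nat.dist_eq_sub_of_le h4]
      exact (Nat.modEq_iff_dvd' h4).1 h3
    · rw [Nat.dist_comm, Nat.dist_eq_sub_of_le h4]
      exact (Nat.modEq_iff_dvd' h4).1 h3.symm
  have h1 : univ.image (fun i => (p - (W * u i) % p) % p) ⊆ Fc W j u p := by
    intro c hc
    rw [mem_image] at hc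
    obtain ⟨i, -, rfl⟩ := hc
    rw [Fc, mem_filter, mem_range]
    exact ⟨Nat.mod_lt _ hp.pos, i, neg_class_dvd hp.pos⟩
  apply le_antisymm (Fc_card_le W j u p)
  calc j = (univ.image (fun i => (p - (W * u i) % p) % p)).card := by
        rw [card_image_of_injective _ hinj, card_univ, Fintype.card_fin]
    _ ≤ _ := card_le_card h1

theorem bad_card (m w j N s : ℕ) (u : Fin j → ℕ) (hu : Function.Injective u)
    (hN : ∀ i, 1 ≤ u i ∧ u i ≤ N) (hs : N ≤ 2 ^ s) :
    ((P2 m w).filter (fun p => (Fc (Wd m w) j u p).card ≠ j)).card ≤ j ^ 2 * s := by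
  classical
  have h1 : (P2 m w).filter (fun p => (Fc (Wd m w) j u p).card ≠ j) ⊆
      ((univ : Finset (Fin j × Fin j)).filter (fun q => q.1 ≠ q.2)).biUnion
        (fun q => (Nat.dist (u q.1) (u q.2)).primeFactors) := by
    intro p hp
    rw [mem_filter] at hp
    obtain ⟨i, i', hne, hd⟩ := Fc_bad (Wd m w) j u p (P2_prime hp.1) (P2_ndvd_W hp.1) hp.2
    rw [mem_biUnion]
    refine ⟨(i, i'), by simp [hne], ?_⟩
    rw [Nat.mem_primeFactors]
    refine ⟨P2_prime hp.1, hd, ?_⟩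
    intro h0
    exact hne (hu (Nat.eq_of_dist_eq_zero h0))
  refine (card_le_card h1).trans ?_
  refine card_biUnion_le.trans ?_
  calc ∑ q ∈ (univ : Finset (Fin j × Fin j)).filter (fun q => q.1 ≠ q.2),
        (Nat.dist (u q.1) (u q.2)).primeFactors.card
      ≤ ∑ _q ∈ (univ : Finset (Fin j × Fin j)).filter (fun q => q.1 ≠ q.2), s := by
        apply sum_le_sum
        intro q hq
        rw [mem_filter] at hq
        have hne : Nat.dist (u q.1) (u q.2) ≠ 0 := fun h0 => hq.2 (hu (Nat.eq_of_dist_eq_zero h0))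
        have h2 := two_pow_card_le _ hne
        have h3 : Nat.dist (u q.1) (u q.2) < N := by
          have ha := hN q.1
          have hb := hN q.2
          unfold Nat.dist
          omega
        have h4 : 2 ^ (Nat.dist (u q.1) (u q.2)).primeFactors.card < 2 ^ s := by omega
        exact ((Nat.pow_lt_pow_iff_right (by norm_num)).1 h4).le
    _ ≤ ∑ _q ∈ (univ : Finset (Fin j × Fin j)), s :=
        sum_le_sum_of_subset (filter_subset _ _)
    _ = j ^ 2 * s := by
        rw [sum_const, card_univ, Fintype.card_prod, Fintype.card_fin, smul_eq_mul, pow_two]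

open Classical in
/-- the counts -/
theorem corr (m w x H j : ℕ) (u : Fin j → ℕ) :
    |(((Ioc x (x + H)).filter (fun a => (∀ p ∈ P1 m w, ¬ p ∣ a) ∧
        ∀ p ∈ P2 m w, ∀ i, ¬ p ∣ a + Wd m w * u i)).card : ℝ) -
      Zf m w H * ∏ p ∈ P2 m w, (1 - ((Fc (Wd m w) j u p).card : ℝ) / p)| ≤
      ((j + 2 : ℕ) : ℝ) ^ m.primeFactors.card := by
  obtain ⟨Om, hOm⟩ : ∃ Om : ℕ → Finset ℕ, Om = fun p => if p ≤ w then {0} else Fc (Wd m w) j u p := ⟨_, rfl⟩
  have hlt : ∀ p ∈ m.primeFactors, ∀ c ∈ Om p, c < p := by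
    intro p hp c hc
    rw [hOm] at hc
    simp only at hc
    split_ifs at hc
    · rw [mem_singleton] at hc
      rw [hc]
      exact (Nat.prime_of_mem_primeFactors hp).pos
    · rw [Fc, mem_filter, mem_range] at hc
      exact hc.1
  have h := cnt m.primeFactors Om (fun p hp => Nat.prime_of_mem_primeFactors hp) hlt 1 0 le_rfl
    (fun p hp hd => (Nat.prime_of_mem_primeFactors hp).one_lt.ne' (Nat.dvd_one.1 hd)) x H
  have e1 : (Ioc x (x + H)).filter (fun a => a % 1 = 0 % 1 ∧ ∀ p ∈ m.primeFactors, a % p ∉ Om p) =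
      (Ioc x (x + H)).filter (fun a => (∀ p ∈ P1 m w, ¬ p ∣ a) ∧
        ∀ p ∈ P2 m w, ∀ i, ¬ p ∣ a + Wd m w * u i) := by
    apply filter_congr
    intro a _
    have hP1 : ∀ p, p ≤ w → (a % p ∉ Om p ↔ ¬ p ∣ a) := by
      intro p hp
      rw [hOm]
      simp only [if_pos hp, mem_singleton]
      rw [Nat.dvd_iff_mod_eq_zero]
    have hP2 : ∀ p, p.Prime → ¬ p ≤ w → (a % p ∉ Om p ↔ ∀ i, ¬ p ∣ a + Wd m w * u i) := by
      intro p hpp hp
      rw [hOm]
      simp only [if_neg hp]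
      rw [Fc, mem_filter, mem_range]
      have h1 : ∀ i, (p ∣ a % p + Wd m w * u i ↔ p ∣ a + Wd m w * u i) := by
        intro i
        constructor
        · intro h2
          have h3 : a + Wd m w * u i = (a % p + Wd m w * u i) + p * (a / p) := by
            have := Nat.mod_add_div a p
            omega
          rw [h3]
          exact Dvd.dvd.add h2 (Dvd.intro _ rfl)
        · intro h2
          have h3 : a + Wd m w * u i = (a % p + Wd m w * u i) + p * (a / p) := by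
            have := Nat.mod_add_div a p
            omega
          rw [h3] at h2
          exact (Nat.dvd_add_left (Dvd.intro _ rfl)).1 h2
      constructor
      · intro h2 i h3
        exact h2 ⟨Nat.mod_lt _ hpp.pos, i, (h1 i).2 h3⟩
      · rintro h2 ⟨-, i, h3⟩
        exact h2 i ((h1 i).1 h3)
    constructor
    · rintro ⟨-, h1⟩
      refine ⟨?_, ?_⟩
      · intro p hp
        rw [P1, mem_filter] at hp
        exact (hP1 p hp.2).1 (h1 p hp.1)
      · intro p hp
        rw [P2, mem_filter] at hp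
        exact (hP2 p (Nat.prime_of_mem_primeFactors hp.1) hp.2).1 (h1 p hp.1)
    · rintro ⟨h1, h2⟩
      refine ⟨by simp [Nat.mod_one], ?_⟩
      intro p hp
      by_cases hpw : p ≤ w
      · exact (hP1 p hpw).2 (h1 p (by rw [P1, mem_filter]; exact ⟨hp, hpw⟩))
      · exact (hP2 p (Nat.prime_of_mem_primeFactors hp) hpw).2
          (h2 p (by rw [P2, mem_filter]; exact ⟨hp, hpw⟩))
  have e2 : (H : ℝ) / (1 : ℕ) * ∏ p ∈ m.primeFactors, (1 - ((Om p).card : ℝ) / p) =
      Zf m w H * ∏ p ∈ P2 m w, (1 - ((Fc (Wd m w) j u p).card : ℝ) / p) := by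
    rw [← prod_filter_mul_prod_filter_not m.primeFactors (fun p => p ≤ w)]
    rw [Zf, Nat.cast_one, div_one, mul_assoc]
    congr 2
    · apply prod_congr rfl
      intro p hp
      rw [mem_filter] at hp
      rw [hOm]
      simp only [if_pos hp.2, card_singleton, Nat.cast_one]
    · apply prod_congr rfl
      intro p hp
      rw [mem_filter] at hp
      rw [hOm]
      simp only [if_neg hp.2]
  rw [e1, e2] at h
  refine h.trans ?_
  rw [← prod_const]
  apply prod_le_prod (fun p _ => by positivity)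
  intro p _
  have h1 : (Om p).card ≤ j + 1 := by
    rw [hOm]
    simp only
    split_ifs
    · rw [card_singleton]; omega
    · exact (Fc_card_le _ _ _ _).trans (by omega)
  have h2 : ((Om p).card : ℝ) ≤ j + 1 := by exact_mod_cast h1
  push_cast
  linarith

/-- The linear forms condition. -/
theorem maj (M : ℕ) (hM : 1 ≤ M) (η : ℝ) (hη : 0 < η) : ∃ (K : ℕ) (κ : ℝ), 0 < κ ∧ 1 ≤ K ∧
    ∀ m s N x H : ℕ, 1 ≤ s → N ≤ 2 ^ s →
    gf m (K * s) ^ M * ((M + 2 : ℕ) : ℝ) ^ m.primeFactors.card ≤ κ * Zf m (K * s) H →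
    0 < Zf m (K * s) H →
    MajG (As m (K * s) x H) (Gw m (K * s)) M η (gf m (K * s)) N ∧
    (As m (K * s) x H).Nonempty ∧ ((As m (K * s) x H).card : ℝ) ≤ 2 * Zf m (K * s) H := by
  classical
  obtain ⟨κ, hκ⟩ : ∃ κ : ℝ, κ = min (η / 8) (1 / 4) := ⟨_, rfl⟩
  have hκ0 : 0 < κ := by rw [hκ]; exact lt_min (by positivity) (by norm_num)
  have hκ1 : κ ≤ 1 / 4 := by rw [hκ]; exact min_le_right _ _
  have hκη : 8 * κ ≤ η := by
    have : κ ≤ η / 8 := by rw [hκ]; exact min_le_left _ _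
    linarith
  obtain ⟨K, hK⟩ : ∃ K : ℕ, 4 * (M : ℝ) ^ 3 / κ ≤ K := exists_nat_ge _
  have hM1 : (1 : ℝ) ≤ M := by exact_mod_cast hM
  have hK' : 4 * (M : ℝ) ^ 3 ≤ κ * K := by
    rw [div_le_iff₀ hκ0] at hK
    linarith
  have hMM : (M : ℝ) ≤ (M : ℝ) ^ 3 := le_self_pow₀ hM1 (by norm_num)
  have hMM2 : (M : ℝ) ^ 2 ≤ (M : ℝ) ^ 3 := pow_le_pow_right₀ hM1 (by norm_num)
  have hK0 : (0 : ℝ) ≤ K := Nat.cast_nonneg K
  have hKM : (4 * M : ℝ) ≤ K := by
    calc (4 * M : ℝ) ≤ 4 * (M : ℝ) ^ 3 := by linarith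
      _ ≤ κ * K := hK'
      _ ≤ 1 * K := by gcongr; linarith
      _ = K := one_mul _
  have hKM' : 4 * M ≤ K := by exact_mod_cast hKM
  refine ⟨K, κ, hκ0, by omega, ?_⟩
  intro m s N x H hs hN hE hZ
  obtain ⟨w, hw⟩ : ∃ w : ℕ, w = K * s := ⟨_, rfl⟩
  rw [← hw] at hE hZ ⊢
  have hKw : K ≤ w := by rw [hw]; exact Nat.le_mul_of_pos_right K hs
  have hw0 : (0 : ℝ) < w := by exact_mod_cast (show 0 < w by omega)
  obtain ⟨g, hg⟩ : ∃ g : ℝ, g = gf m w := ⟨_, rfl⟩
  have hg1 : 1 ≤ g := by rw [hg]; exact gf_one_le m w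
  obtain ⟨Z, hZd⟩ : ∃ Z : ℝ, Z = Zf m w H := ⟨_, rfl⟩
  rw [← hg, ← hZd] at hE
  rw [← hZd] at hZ
  have key : ∀ j : ℕ, j ≤ M → ∀ u : Fin j → ℕ, Function.Injective u → (∀ i, 1 ≤ u i ∧ u i ≤ N) →
      |∑ a ∈ As m w x H, ∏ i, Gw m w a (u i) - Z| ≤ 2 * κ * Z := by
    intro j hj u hu hu1
    have hjM : (j : ℝ) ≤ M := by exact_mod_cast hj
    have hc := corr m w x H j u
    obtain ⟨T, hT⟩ : ∃ T : ℝ, T = (((Ioc x (x + H)).filter (fun a => (∀ p ∈ P1 m w, ¬ p ∣ a) ∧
        ∀ p ∈ P2 m w, ∀ i, ¬ p ∣ a + Wd m w * u i)).card : ℝ) := ⟨_, rfl⟩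
    rw [← hT, ← hZd] at hc
    have e1 : ∑ a ∈ As m w x H, ∏ i, Gw m w a (u i) = g ^ j * T := by
      have h1 : ∀ a, ∏ i, Gw m w a (u i) =
          if ∀ p ∈ P2 m w, ∀ i, ¬ p ∣ a + Wd m w * u i then g ^ j else 0 := by
        intro a
        split_ifs with h
        · have h2 : ∀ i, Gw m w a (u i) = g := by
            intro i
            rw [Gw, if_pos (fun p hp => h p hp i), hg]
          simp_rw [h2]
          rw [prod_const, card_univ, Fintype.card_fin]
        · push Not at h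
          obtain ⟨p, hp, i, hd⟩ := h
          apply prod_eq_zero (mem_univ i)
          rw [Gw, if_neg]
          intro h3
          exact h3 p hp hd
      simp_rw [h1]
      rw [← sum_filter, sum_const, nsmul_eq_mul, mul_comm, hT, As, filter_filter]
    rw [e1]
    obtain ⟨R, hR⟩ : ∃ R : ℝ, R = ∏ p ∈ P2 m w, (1 - ((Fc (Wd m w) j u p).card : ℝ) / p) /
      (1 - 1 / (p : ℝ)) ^ j := ⟨_, rfl⟩
    have e2 : g ^ j * ∏ p ∈ P2 m w, (1 - ((Fc (Wd m w) j u p).card : ℝ) / p) = R := by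
      rw [hR, hg, gf, ← prod_pow, ← prod_mul_distrib]
      apply prod_congr rfl
      intro p _
      rw [inv_pow, mul_comm, ← div_eq_mul_inv]
    obtain ⟨hR1, hR2⟩ := prodR j w (by omega) (by omega) (P2 m w) (fun p hp => P2_lt hp)
      (fun p => (Fc (Wd m w) j u p).card) (fun p _ => Fc_card_le _ _ _ _)
    rw [← hR] at hR1 hR2
    have hbad := bad_card m w j N s u hu hu1 hN
    have hbad' : (((P2 m w).filter (fun p => (Fc (Wd m w) j u p).card ≠ j)).card : ℝ) ≤ (j : ℝ) ^ 2 * s := by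
      exact_mod_cast hbad
    have hj3 : (j : ℝ) ^ 3 ≤ (M : ℝ) ^ 3 := pow_le_pow_left₀ (Nat.cast_nonneg _) hjM 3
    have hj2 : (j : ℝ) ^ 2 ≤ (M : ℝ) ^ 2 := pow_le_pow_left₀ (Nat.cast_nonneg _) hjM 2
    have hs0 : (0 : ℝ) ≤ s := Nat.cast_nonneg s
    have hwK : (w : ℝ) = K * s := by rw [hw]; push_cast; ring
    have hR2' : R ≤ 1 + κ := by
      refine hR2.trans ?_
      have h1 : 2 * (j : ℝ) * ((P2 m w).filter (fun p => (Fc (Wd m w) j u p).card ≠ j)).card / w ≤ κ / 2 := by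
        rw [div_le_iff₀ hw0]
        calc 2 * (j : ℝ) * ((P2 m w).filter (fun p => (Fc (Wd m w) j u p).card ≠ j)).card
            ≤ 2 * (j : ℝ) * ((j : ℝ) ^ 2 * s) := by
              apply mul_le_mul_of_nonneg_left hbad' (by positivity)
          _ = 2 * (j : ℝ) ^ 3 * s := by ring
          _ ≤ 2 * (M : ℝ) ^ 3 * s := by gcongr
          _ = (4 * (M : ℝ) ^ 3) * s / 2 := by ring
          _ ≤ (κ * K) * s / 2 := by gcongr
          _ = κ / 2 * w := by rw [hwK]; ring
      refine (Real.exp_le_exp.2 h1).trans ?_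
      have h2 : Real.exp (κ / 2) ≤ 1 / (1 - κ / 2) := Real.exp_bound_div_one_sub_of_interval
        (by positivity) (by linarith)
      refine h2.trans ?_
      rw [div_le_iff₀ (by linarith)]
      nlinarith
    have hR1' : 1 - κ ≤ R := by
      refine le_trans ?_ hR1
      have h1 : 2 * (j : ℝ) ^ 2 / w ≤ κ := by
        rw [div_le_iff₀ hw0]
        calc 2 * (j : ℝ) ^ 2 ≤ 4 * (M : ℝ) ^ 3 := by nlinarith
          _ ≤ κ * K := hK'
          _ ≤ κ * w := by gcongr
      linarith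
    have hgj : g ^ j ≤ g ^ M := pow_le_pow_right₀ hg1 hj
    have hEj : ((j + 2 : ℕ) : ℝ) ^ m.primeFactors.card ≤ ((M + 2 : ℕ) : ℝ) ^ m.primeFactors.card := by
      apply pow_le_pow_left₀ (Nat.cast_nonneg _)
      exact_mod_cast (show j + 2 ≤ M + 2 by omega)
    have h3 : |g ^ j * T - Z * R| ≤ κ * Z := by
      have e3 : g ^ j * T - Z * R = g ^ j * (T - Z * ∏ p ∈ P2 m w, (1 - ((Fc (Wd m w) j u p).card : ℝ) / p)) := by
        rw [← e2]; ring
      rw [e3, abs_mul, abs_of_nonneg (by positivity)]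
      calc g ^ j * |T - Z * ∏ p ∈ P2 m w, (1 - ((Fc (Wd m w) j u p).card : ℝ) / p)|
          ≤ g ^ M * ((M + 2 : ℕ) : ℝ) ^ m.primeFactors.card :=
            mul_le_mul hgj (hc.trans hEj) (abs_nonneg _) (by positivity)
        _ ≤ κ * Z := hE
    have h4 : |Z * R - Z| ≤ κ * Z := by
      have e4 : Z * R - Z = Z * (R - 1) := by ring
      rw [e4, abs_mul, abs_of_pos hZ, mul_comm]
      apply mul_le_mul_of_nonneg_right _ hZ.le
      rw [abs_le]
      constructor <;> linarith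
    have h3' := abs_le.1 h3
    have h4' := abs_le.1 h4
    rw [abs_le]
    constructor <;> linarith [h3'.1, h3'.2, h4'.1, h4'.2]
  have h0 := key 0 (Nat.zero_le _) (fun i => i.elim0) (fun i => i.elim0) (fun i => i.elim0)
  simp only [univ_eq_empty, prod_empty, sum_const, nsmul_eq_mul, mul_one] at h0
  have h0' := abs_le.1 h0
  have hκZ : κ * Z ≤ 1 / 4 * Z := mul_le_mul_of_nonneg_right hκ1 hZ.le
  have hA0 : (0 : ℝ) < (As m w x H).card := by linarith [h0'.1]
  refine ⟨⟨?_, ?_, ?_⟩, ?_, ?_⟩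
  · intro a u
    unfold Gw
    split_ifs
    · rw [← hg]; linarith
    · exact le_rfl
  · intro j hj u hu hu1
    have h1 := abs_le.1 (key j hj u hu hu1)
    obtain ⟨Sg, hSg⟩ : ∃ Sg : ℝ, Sg = ∑ a ∈ As m w x H, ∏ i, Gw m w a (u i) := ⟨_, rfl⟩
    rw [← hSg] at h1 ⊢
    have h5 : Sg / (As m w x H).card - 1 = (Sg - (As m w x H).card) / (As m w x H).card := by field_simp
    rw [h5, abs_div, abs_of_pos hA0, div_le_iff₀ hA0]
    have h6 : |Sg - (As m w x H).card| ≤ 4 * κ * Z := by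
      rw [abs_le]
      constructor <;> linarith [h1.1, h1.2, h0'.1, h0'.2]
    have h7 : Z ≤ 2 * (As m w x H).card := by linarith [h0'.1]
    calc |Sg - (As m w x H).card| ≤ 4 * κ * Z := h6
      _ ≤ 4 * κ * (2 * (As m w x H).card) := by gcongr
      _ = 8 * κ * (As m w x H).card := by ring
      _ ≤ η * (As m w x H).card := by gcongr
  · intro a _ u _ _
    unfold Gw
    split_ifs
    · exact le_rfl
    · rw [← hg]; linarith
  · rw [← card_pos]
    exact_mod_cast hA0
  · rw [← hZd]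
    linarith [h0'.2]

end Pool.Agent.Y848.RC
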